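import Pool.Agent.Lib.MP_017654_co.Defs

/-!
# The rank argument

If a kernel `M` of rank at most `n - 1` has the matrix `J - I` on an `n`-set, then the rows indexed by
this set span everything, and `∑ M(r_i, u) M(r_i, v) = - M(u, v)`.
-/

set_option autoImplicit false

namespace Pool.Agent.Lib.MP_017654_co

open Module Finset

section Tight

variable {K : Type*} [Field K] {X : Type*}

theorem tight {ι : Type*} [Fintype ι] [DecidableEq ι] (F : Submodule K (X → K))
    [FiniteDimensional K F] (r : ι → X) (M : X → X → K)
    (hM : ∀ x, M x ∈ F) (hsymm : ∀ x y, M x y = M y x)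
    (hdiag : ∀ i, M (r i) (r i) = 0) (hoff : ∀ i j, i ≠ j → M (r i) (r j) = 1)
    (hcard : finrank K F + 1 ≤ Fintype.card ι) (u v : X) :
    ∑ i, M (r i) u * M (r i) v = - M u v := by
  have hpos : 0 < Fintype.card ι := by omega
  obtain ⟨i0⟩ : Nonempty ι := Fintype.card_pos_iff.1 hpos
  -- the kernel on `r`
  have hker : ∀ i j, M (r i) (r j) = if i = j then 0 else 1 := by
    intro i j
    split_ifs with h
    · rw [h, hdiag]
    · exact hoff i j h
  let g : {i // i ≠ i0} → F := fun i => ⟨M (r i), hM _⟩ - ⟨M (r i0), hM _⟩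
  have hg : ∀ (i : {i // i ≠ i0}) (j : ι), (g i : X → K) (r j) =
      (if (i : ι) = j then 0 else 1) - (if i0 = j then 0 else 1) := by
    intro i j
    change M (r i) (r j) - M (r i0) (r j) = _
    rw [hker, hker]
  have hsum : ∀ (c : {i // i ≠ i0} → K) (j : {i // i ≠ i0}),
      ((∑ i, c i • g i : F) : X → K) (r j) = - c j := by
    intro c j
    rw [Submodule.coe_sum, Finset.sum_apply]
    have : ∀ i, ((c i • g i : F) : X → K) (r j) = if i = j then - c i else 0 := by
      intro i
      change c i * (g i : X → K) (r j) = _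
      rw [hg]
      have hj : ¬ (i0 = (j : ι)) := fun h => j.2 h.symm
      by_cases hij : i = j
      · subst hij; simp [hj]
      · have hij' : ¬ ((i : ι) = j) := fun h => hij (Subtype.ext h)
        simp [hij, hij', hj]
    rw [Finset.sum_congr rfl fun i _ => this i]
    simp
  have hli : LinearIndependent K g := by
    rw [Fintype.linearIndependent_iff]
    intro c hc i
    have := hsum c i
    rw [hc] at this
    simpa using this.symm
  have hc1 : Fintype.card {i // i ≠ i0} = Fintype.card ι - 1 := by
    rw [Fintype.card_subtype_compl, Fintype.card_subtype_eq]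
  have hc2 : Fintype.card {i // i ≠ i0} = finrank K F := by
    have := hli.fintype_card_le_finrank
    omega
  have hspan := hli.span_eq_top_of_card_eq_finrank' hc2
  -- every member of `F` is a combination
  have hcomb : ∀ f ∈ F, ∃ c : {i // i ≠ i0} → K, f = ((∑ i, c i • g i : F) : X → K) := by
    intro f hf
    have h1 : (⟨f, hf⟩ : F) ∈ Submodule.span K (Set.range g) := by rw [hspan]; trivial
    obtain ⟨c, hc⟩ := (Submodule.mem_span_range_iff_exists_fun K).1 h1
    exact ⟨c, by rw [hc]⟩
  have hzero : ∀ f ∈ F, (∀ i, f (r i) = 0) → f = 0 := by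
    intro f hf h0
    obtain ⟨c, rfl⟩ := hcomb f hf
    have hc : c = 0 := by
      funext j
      have := h0 j
      rw [hsum] at this
      simpa using this
    rw [hc]
    simp
  -- the number of elements is one in `K`
  have hone : (Fintype.card ι : K) = 1 := by
    obtain ⟨c, hc⟩ := hcomb (M (r i0)) (hM _)
    have h1 : ∀ j : {i // i ≠ i0}, c j = -1 := by
      intro j
      have h2 := congrFun hc (r j)
      rw [hsum, hoff i0 j (Ne.symm j.2)] at h2
      rw [h2, neg_neg]
    have h3 := congrFun hc (r i0)
    rw [hdiag, Submodule.coe_sum, Finset.sum_apply] at h3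
    have h4 : ∀ i, ((c i • g i : F) : X → K) (r i0) = -1 := by
      intro i
      change c i * (g i : X → K) (r i0) = _
      rw [hg, h1]
      simp [i.2]
    rw [Finset.sum_congr rfl fun i _ => h4 i, Finset.sum_const, Finset.card_univ, hc1] at h3
    rw [nsmul_eq_mul, mul_neg, mul_one, Nat.cast_sub (by omega), Nat.cast_one] at h3
    linear_combination h3
  have hR : ∀ w, ∑ i, M (r i) w = 0 := by
    have h1 : (∑ i, M (r i)) = 0 := by
      apply hzero _ (Submodule.sum_mem _ fun i _ => hM _)
      intro j
      rw [Finset.sum_apply, Finset.sum_congr rfl fun i _ => hker i j]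
      have : ∀ i : ι, (if i = j then (0 : K) else 1) = 1 - if i = j then 1 else 0 := by
        intro i; split_ifs <;> simp
      rw [Finset.sum_congr rfl fun i _ => this i, Finset.sum_sub_distrib, Finset.sum_const,
        Finset.card_univ, nsmul_eq_mul, mul_one, hone]
      simp
    intro w
    have := congrFun h1 w
    rwa [Finset.sum_apply] at this
  have hfin : (∑ i, M (r i) v • M (r i) + M v) = 0 := by
    apply hzero _ (Submodule.add_mem _ (Submodule.sum_mem _ fun i _ =>
      Submodule.smul_mem _ _ (hM _)) (hM _))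
    intro j
    rw [Pi.add_apply, Finset.sum_apply]
    have : ∀ i, (M (r i) v • M (r i)) (r j) = M (r i) v - if i = j then M (r i) v else 0 := by
      intro i
      rw [Pi.smul_apply, smul_eq_mul, hker]
      split_ifs <;> simp
    rw [Finset.sum_congr rfl fun i _ => this i, Finset.sum_sub_distrib, hR v]
    simp [hsymm v (r j)]
  have h5 := congrFun hfin u
  rw [Pi.add_apply, Finset.sum_apply, Pi.zero_apply] at h5
  have h6 : ∀ i, (M (r i) v • M (r i)) u = M (r i) u * M (r i) v := by
    intro i
    rw [Pi.smul_apply, smul_eq_mul, mul_comm]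
  rw [Finset.sum_congr rfl fun i _ => h6 i, hsymm v u] at h5
  exact eq_neg_of_add_eq_zero_left h5

end Tight

section Power

variable {K : Type*} [Field K] {X : Type*}

/-- the functions `g ^ (1 + p + ⋯ + p ^ (h - 1))` with `g ∈ G` lie in a space of dimension at most
`(dim G) ^ h` -/
theorem exists_pow_space (p : ℕ) [Fact p.Prime] [CharP K p] (h : ℕ) (G : Submodule K (X → K))
    [FiniteDimensional K G] :
    ∃ F : Submodule K (X → K), FiniteDimensional K F ∧ finrank K F ≤ finrank K G ^ h ∧
      ∀ g ∈ G, (fun x => g x ^ (∑ j ∈ range h, p ^ j)) ∈ F := by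
  classical
  set d := finrank K G with hd
  let b : Basis (Fin d) K G := finBasis K G
  let Φ : (Fin h → Fin d) → (X → K) := fun k x => ∏ j, (b (k j) : X → K) x ^ p ^ (j : ℕ)
  refine ⟨Submodule.span K (Set.range Φ), FiniteDimensional.span_of_finite K (Set.finite_range Φ),
    ?_, ?_⟩
  · have := finrank_range_le_card (R := K) Φ
    simpa [Set.finrank] using this
  · intro g hg
    have hexp : ∀ x, g x = ∑ i, b.repr ⟨g, hg⟩ i * (b i : X → K) x := by
      intro x
      have h1 := b.sum_repr ⟨g, hg⟩
      have h2 := congrArg (fun f : G => (f : X → K) x) h1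
      simp only [Submodule.coe_sum, Finset.sum_apply, Submodule.coe_smul, Pi.smul_apply,
        smul_eq_mul] at h2
      exact h2.symm
    set c : Fin d → K := fun i => b.repr ⟨g, hg⟩ i with hc
    have hexp2 : (fun x => g x ^ (∑ j ∈ range h, p ^ j)) =
        ∑ k : Fin h → Fin d, (∏ j, c (k j) ^ p ^ (j : ℕ)) • Φ k := by
      funext x
      rw [Finset.sum_apply, ← Fin.sum_univ_eq_sum_range, ← Finset.prod_pow_eq_pow_sum]
      have h3 : ∀ j : Fin h, g x ^ p ^ (j : ℕ) =
          ∑ i ∈ (Finset.univ : Finset (Fin d)), (c i * (b i : X → K) x) ^ p ^ (j : ℕ) := by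
        intro j
        rw [hexp x, sum_pow_char_pow]
      rw [Finset.prod_congr rfl fun j _ => h3 j, Finset.prod_univ_sum, Fintype.piFinset_univ]
      refine Finset.sum_congr rfl fun k _ => ?_
      rw [Pi.smul_apply, smul_eq_mul, ← Finset.prod_mul_distrib]
      refine Finset.prod_congr rfl fun j _ => ?_
      rw [mul_pow]
    rw [hexp2]
    refine Submodule.sum_mem _ fun k _ => Submodule.smul_mem _ _ (Submodule.subset_span ⟨k, rfl⟩)

end Power

end Pool.Agent.Lib.MP_017654_co
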