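import Pool.Agent.Lib.MP_017654_co.Quadric
import Pool.Agent.Lib.MP_017654_co.Tight

/-!
# No partition into ovoids when the rank bound is attained
-/

set_option autoImplicit false

namespace Pool.Agent.Lib.MP_017654_co

open Module Finset

section Sum

variable {K V : Type*} [Field K] [Fintype K] [AddCommGroup V] [Module K V]
  [FiniteDimensional K V] {Q : QuadraticForm K V}

theorem card_sub_one_pos : 0 < Fintype.card K - 1 := by
  have := Fintype.one_lt_card (α := K)
  omega

/-- A sum of low degree over the zeros of `Q` vanishes. -/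
theorem sum_sing_eq_zero [Fintype V] [DecidableEq K] (hdim : 4 < finrank K V) (u v : V) :
    ∑ x : V with Q x = 0, pol Q x u ^ (Fintype.card K - 1) * pol Q x v ^ (Fintype.card K - 1)
      = 0 := by
  classical
  set n := finrank K V with hn
  set q := Fintype.card K with hq
  have hq1 : 0 < q - 1 := card_sub_one_pos
  let b : Basis (Fin n) K V := finBasis K V
  obtain ⟨β, hβ⟩ := LinearMap.BilinMap.toQuadraticMap_surjective Q
  let L : V → MvPolynomial (Fin n) K := fun w =>
    ∑ i, MvPolynomial.C (pol Q (b i) w) * MvPolynomial.X i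
  let q₂ : MvPolynomial (Fin n) K :=
    ∑ i, ∑ j, MvPolynomial.C (β (b i) (b j)) * (MvPolynomial.X i * MvPolynomial.X j)
  let P : MvPolynomial (Fin n) K := (1 - q₂ ^ (q - 1)) * (L u ^ (q - 1) * L v ^ (q - 1))
  have hL : ∀ w, (L w).totalDegree ≤ 1 := by
    intro w
    refine MvPolynomial.totalDegree_finsetSum_le fun i _ => ?_
    refine (MvPolynomial.totalDegree_mul _ _).trans ?_
    rw [MvPolynomial.totalDegree_C, MvPolynomial.totalDegree_X]
  have hq2 : q₂.totalDegree ≤ 2 := by
    refine MvPolynomial.totalDegree_finsetSum_le fun i _ => ?_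
    refine MvPolynomial.totalDegree_finsetSum_le fun j _ => ?_
    refine (MvPolynomial.totalDegree_mul _ _).trans ?_
    rw [MvPolynomial.totalDegree_C, zero_add]
    refine (MvPolynomial.totalDegree_mul _ _).trans ?_
    rw [MvPolynomial.totalDegree_X, MvPolynomial.totalDegree_X]
  have hP : P.totalDegree ≤ 4 * (q - 1) := by
    refine (MvPolynomial.totalDegree_mul _ _).trans ?_
    have h1 : (1 - q₂ ^ (q - 1)).totalDegree ≤ 2 * (q - 1) := by
      refine (MvPolynomial.totalDegree_sub _ _).trans ?_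
      rw [MvPolynomial.totalDegree_one, max_le_iff]
      refine ⟨Nat.zero_le _, (MvPolynomial.totalDegree_pow _ _).trans ?_⟩
      rw [mul_comm 2]
      exact Nat.mul_le_mul_left _ hq2
    have h2 : ∀ w, (L w ^ (q - 1)).totalDegree ≤ q - 1 := by
      intro w
      refine (MvPolynomial.totalDegree_pow _ _).trans ?_
      calc (q - 1) * (L w).totalDegree ≤ (q - 1) * 1 := Nat.mul_le_mul_left _ (hL w)
        _ = q - 1 := mul_one _
    have h3 : (L u ^ (q - 1) * L v ^ (q - 1)).totalDegree ≤ (q - 1) + (q - 1) :=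
      (MvPolynomial.totalDegree_mul _ _).trans (add_le_add (h2 u) (h2 v))
    omega
  have hdeg : P.totalDegree < (Fintype.card K - 1) * Fintype.card (Fin n) := by
    rw [Fintype.card_fin]
    refine lt_of_le_of_lt hP ?_
    rw [← hq, mul_comm]
    exact Nat.mul_lt_mul_of_pos_left hdim hq1
  have hsum := MvPolynomial.sum_eval_eq_zero P hdeg
  -- transport to `V`
  have hevL : ∀ (w : V) (x : Fin n → K), MvPolynomial.eval x (L w) =
      pol Q (b.equivFun.symm x) w := by
    intro w x
    rw [b.equivFun_symm_apply, map_sum, map_sum, LinearMap.sum_apply]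
    refine Finset.sum_congr rfl fun i _ => ?_
    rw [map_mul, MvPolynomial.eval_C, MvPolynomial.eval_X, map_smul, LinearMap.smul_apply,
      smul_eq_mul, mul_comm]
  have hevq : ∀ x : Fin n → K, MvPolynomial.eval x q₂ = Q (b.equivFun.symm x) := by
    intro x
    rw [← hβ, LinearMap.BilinMap.toQuadraticMap_apply, b.equivFun_symm_apply]
    simp only [map_sum, LinearMap.sum_apply, map_smul, LinearMap.smul_apply, smul_eq_mul]
    have h1 : MvPolynomial.eval x q₂ = ∑ i, ∑ j, β (b i) (b j) * (x i * x j) := by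
      simp only [q₂, map_sum, map_mul, MvPolynomial.eval_C, MvPolynomial.eval_X]
    rw [h1, Finset.sum_comm]
    refine Finset.sum_congr rfl fun j _ => ?_
    rw [Finset.mul_sum]
    refine Finset.sum_congr rfl fun i _ => ?_
    ring
  have hev : ∀ x : Fin n → K, MvPolynomial.eval x P =
      if Q (b.equivFun.symm x) = 0 then pol Q (b.equivFun.symm x) u ^ (q - 1) *
        pol Q (b.equivFun.symm x) v ^ (q - 1) else 0 := by
    intro x
    rw [map_mul, map_sub, map_one, map_pow, hevq, map_mul, map_pow, map_pow, hevL, hevL]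
    split_ifs with h
    · rw [h, zero_pow hq1.ne', sub_zero, one_mul]
    · rw [FiniteField.pow_card_sub_one_eq_one _ h, sub_self, zero_mul]
  rw [Finset.sum_filter, ← Equiv.sum_comp b.equivFun.symm.toEquiv]
  refine Eq.trans (Finset.sum_congr rfl fun x _ => ?_) hsum
  rw [hev]
  rfl

end Sum

section Partition

variable {K V : Type*} [Field K] [Fintype K] [AddCommGroup V] [Module K V] [Fintype V]
  {Q : QuadraticForm K V}

open Classical in
theorem cast_card_units : ((Fintype.card Kˣ : ℕ) : K) = -1 := by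
  rw [Fintype.card_units, Nat.cast_sub Fintype.card_pos, FiniteField.cast_card_eq_zero]
  simp

open Classical in
theorem sum_ovoid {O : Set (Submodule K V)} [Fintype O] (r : O → V) (hr0 : ∀ y, r y ≠ 0)
    (hr : ∀ y : O, (y : Submodule K V) = Submodule.span K {r y}) (F : V → K)
    (hF : ∀ (c : K) (x : V), c ≠ 0 → F (c • x) = F x) :
    ∑ x : V with x ≠ 0 ∧ Submodule.span K {x} ∈ O, F x = - ∑ y : O, F (r y) := by
  have h1 : - ∑ y : O, F (r y) = ∑ i : O × Kˣ, F ((i.2 : K) • r i.1) := by
    rw [Fintype.sum_prod_type]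
    have : ∀ y : O, ∑ c : Kˣ, F ((c : K) • r y) = - F (r y) := by
      intro y
      rw [Finset.sum_congr rfl fun c _ => hF _ _ (Units.ne_zero c), Finset.sum_const,
        Finset.card_univ, nsmul_eq_mul, cast_card_units]
      ring
    rw [Finset.sum_congr rfl fun y _ => this y, Finset.sum_neg_distrib]
  rw [h1]
  symm
  refine Finset.sum_bij (fun i _ => (i.2 : K) • r i.1) ?_ ?_ ?_ ?_
  · rintro ⟨y, c⟩ -
    rw [Finset.mem_filter]
    refine ⟨Finset.mem_univ _, smul_ne_zero (Units.ne_zero c) (hr0 y), ?_⟩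
    rw [Submodule.span_singleton_smul_eq c.isUnit, ← hr y]
    exact y.2
  · rintro ⟨y1, c1⟩ - ⟨y2, c2⟩ - h
    change (c1 : K) • r y1 = (c2 : K) • r y2 at h
    have h2 : (y1 : Submodule K V) = y2 := by
      rw [hr y1, hr y2, ← Submodule.span_singleton_smul_eq c1.isUnit (r y1), h,
        Submodule.span_singleton_smul_eq c2.isUnit]
    have h3 : y1 = y2 := Subtype.ext h2
    subst h3
    have h4 : (c1 : K) = c2 := smul_left_injective K (hr0 y1) h
    rw [Units.ext h4]
  · intro x hx
    rw [Finset.mem_filter] at hx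
    obtain ⟨-, hx0, hxO⟩ := hx
    have h2 : x ∈ Submodule.span K {r ⟨_, hxO⟩} := by
      rw [← hr]
      exact Submodule.mem_span_singleton_self x
    obtain ⟨c, hc⟩ := Submodule.mem_span_singleton.1 h2
    have hc0 : c ≠ 0 := by
      intro h; rw [h, zero_smul] at hc; exact hx0 hc.symm
    exact ⟨⟨⟨_, hxO⟩, Units.mk0 c hc0⟩, Finset.mem_univ _, hc⟩
  · intro i _
    rfl

open Classical in
theorem sum_partition {r : ℕ} {P : Set (Set (Submodule K V))} [Fintype P]
    (hP : IsOvoidPartition (TotSing Q) r P) (F : V → K) :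
    ∑ x : V with x ≠ 0 ∧ Q x = 0, F x =
      ∑ O : P, ∑ x : V with x ≠ 0 ∧ Submodule.span K {x} ∈ O.1, F x := by
  simp only [Finset.sum_filter]
  rw [Finset.sum_comm]
  refine Finset.sum_congr rfl fun x _ => ?_
  by_cases hx : x ≠ 0 ∧ Q x = 0
  · rw [if_pos hx]
    have hpt : IsPoint (TotSing Q) (Submodule.span K {x}) := by
      refine ⟨?_, finrank_span_one hx.1⟩
      intro y hy
      obtain ⟨c, rfl⟩ := Submodule.mem_span_singleton.1 hy
      rw [Q_smul, hx.2, mul_zero]
    obtain ⟨O, ⟨hOP, hxO⟩, huniq⟩ := hP.2 _ hpt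
    rw [Finset.sum_eq_single (⟨O, hOP⟩ : P)]
    · rw [if_pos ⟨hx.1, hxO⟩]
    · intro O' _ hne
      rw [if_neg]
      rintro ⟨-, h2⟩
      exact hne (Subtype.ext (huniq _ ⟨O'.2, h2⟩))
    · intro h
      exact absurd (Finset.mem_univ _) h
  · rw [if_neg hx]
    symm
    apply Finset.sum_eq_zero
    intro O _
    rw [if_neg]
    rintro ⟨h1, h2⟩
    apply hx
    exact ⟨h1, ((hP.1 _ O.2).1 _ h2).1 x (Submodule.mem_span_singleton_self x)⟩

/-- The main criterion: if the kernel `(x, u) ↦ B(x, u) ^ (q - 1)` on the singular vectors has rank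
at most `q ^ d`, `d + 1` the dimension of `W^⊥` for `W` maximal, there is no partition into
ovoids. -/
theorem no_partition (hdim : 4 < finrank K V) (hQ : NonDeg Q) {r : ℕ}
    (hr1 : 0 < r) (hr : WittIndex (TotSing Q) r) {d : ℕ}
    (hd : ∀ W, IsMax (TotSing Q) r W → finrank K (orth Q W) = d + 1)
    (F : Submodule K ({x : V // Q x = 0} → K)) (hFd : finrank K F ≤ Fintype.card K ^ d)
    (hF : ∀ u : {x : V // Q x = 0},
      (fun x : {x : V // Q x = 0} => pol Q (x : V) u ^ (Fintype.card K - 1)) ∈ F) :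
    ¬ ∃ P, IsOvoidPartition (TotSing Q) r P := by
  classical
  rintro ⟨P, hP⟩
  set q := Fintype.card K with hq
  have hq1 : 0 < q - 1 := card_sub_one_pos
  have : FiniteDimensional K V := Module.Finite.of_finite
  have hfinS : Finite (Submodule K V) :=
    Finite.of_injective (fun W : Submodule K V => (W : Set V)) SetLike.coe_injective
  have : Fintype P := Fintype.ofFinite P
  obtain ⟨W, hW, hWr⟩ := hr.1
  have hWd := hd W ⟨hW, hWr⟩
  let M : V → V → K := fun x u => pol Q x u ^ (q - 1)
  have hMhom : ∀ (u : V) (c : K) (x : V), c ≠ 0 → M (c • x) u = M x u := by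
    intro u c x hc
    change pol Q (c • x) u ^ (q - 1) = pol Q x u ^ (q - 1)
    rw [map_smul, LinearMap.smul_apply, smul_eq_mul, mul_pow,
      FiniteField.pow_card_sub_one_eq_one c hc, one_mul]
  -- representatives
  have hrep : ∀ O : P, ∃ ρ : ↥O.1 → V, (∀ y, ρ y ≠ 0) ∧
      ∀ y : ↥O.1, (y : Submodule K V) = Submodule.span K {ρ y} := by
    intro O
    have h1 : ∀ y : ↥O.1, ∃ v : V, v ≠ 0 ∧
        (y : Submodule K V) = Submodule.span K {v} := fun y =>
      exists_span_of_finrank_one ((hP.1 _ O.2).1 _ y.2).2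
    choose ρ hρ using h1
    exact ⟨ρ, fun y => (hρ y).1, fun y => (hρ y).2⟩
  have hsingρ : ∀ (O : P) (ρ : ↥O.1 → V),
      (∀ y : ↥O.1, (y : Submodule K V) = Submodule.span K {ρ y}) → ∀ y, Q (ρ y) = 0 := by
    intro O ρ hρ y
    apply ((hP.1 _ O.2).1 _ y.2).1
    rw [hρ y]
    exact Submodule.mem_span_singleton_self _
  -- the rank argument for one part
  have hT : ∀ (O : P) (u v : V), Q u = 0 → Q v = 0 →
      ∑ x : V with x ≠ 0 ∧ Submodule.span K {x} ∈ O.1, M x u * M x v
        = M u v := by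
    intro O u v hu hv
    have hO := hP.1 _ O.2
    obtain ⟨ρ, hρ0, hρ⟩ := hrep O
    have hρs := hsingρ O ρ hρ
    have : Fintype ↥O.1 := Fintype.ofFinite _
    rw [sum_ovoid ρ hρ0 hρ (fun x => M x u * M x v)
      (fun c x hc => by rw [hMhom u c x hc, hMhom v c x hc])]
    have key := tight F (ι := ↥O.1)
      (fun y => (⟨ρ y, hρs y⟩ : {x : V // Q x = 0}))
      (fun x y => pol Q (y : V) (x : V) ^ (q - 1)) hF
      (fun x y => by rw [pol_comm])
      (fun i => by
        change pol Q (ρ i) (ρ i) ^ (q - 1) = 0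
        rw [pol_self, hρs i, mul_zero, zero_pow hq1.ne'])
      (fun i j hij => by
        apply FiniteField.pow_card_sub_one_eq_one
        refine hO.pol_ne hr (x := ρ j) (y := ρ i) ?_ ?_ ?_
        · rw [← hρ j]; exact j.2
        · rw [← hρ i]; exact i.2
        · rw [← hρ i, ← hρ j]
          exact fun h => hij (Subtype.ext h.symm))
      ((add_le_add_left hFd 1).trans (hO.card_ge hQ hr hW hWr hWd)) ⟨u, hu⟩ ⟨v, hv⟩
    have key' : ∑ y : ↥O.1, M (ρ y) u * M (ρ y) v = - M u v := by
      have h1 : ∀ y, M (ρ y) u * M (ρ y) v =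
          pol Q (u : V) (ρ y) ^ (q - 1) * pol Q (v : V) (ρ y) ^ (q - 1) := by
        intro y
        change pol Q (ρ y) u ^ (q - 1) * pol Q (ρ y) v ^ (q - 1) = _
        rw [pol_comm u, pol_comm v]
      rw [Finset.sum_congr rfl fun y _ => h1 y]
      refine key.trans ?_
      change - pol Q v u ^ (q - 1) = - pol Q u v ^ (q - 1)
      rw [pol_comm]
    rw [key', neg_neg]
  -- the number of parts is one in `K`
  have hcard : ((Fintype.card P : ℕ) : K) = 1 := by
    let F1 : V → K := fun x => if x ∈ W then 1 else 0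
    have hF1 : ∀ (c : K) (x : V), c ≠ 0 → F1 (c • x) = F1 x := by
      intro c x hc
      change (if c • x ∈ W then (1 : K) else 0) = if x ∈ W then 1 else 0
      rw [Submodule.smul_mem_iff _ hc]
    have h1 := sum_partition hP F1
    have h2 : ∀ O : P, ∑ x : V with x ≠ 0 ∧ Submodule.span K {x} ∈ O.1,
        F1 x = -1 := by
      intro O
      obtain ⟨ρ, hρ0, hρ⟩ := hrep O
      have : Fintype ↥O.1 := Fintype.ofFinite _
      rw [sum_ovoid ρ hρ0 hρ F1 hF1]
      obtain ⟨y, ⟨hyO, hyW⟩, huniq⟩ := (hP.1 _ O.2).2 W ⟨hW, hWr⟩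
      rw [Finset.sum_eq_single (⟨y, hyO⟩ : ↥O.1)]
      · have : ρ ⟨y, hyO⟩ ∈ W := by
          apply hyW
          have h6 : Submodule.span K {ρ ⟨y, hyO⟩} ≤ y := (hρ ⟨y, hyO⟩).symm.le
          exact h6 (Submodule.mem_span_singleton_self _)
        change -(if ρ ⟨y, hyO⟩ ∈ W then (1 : K) else 0) = -1
        rw [if_pos this]
      · intro z _ hz
        change (if ρ z ∈ W then (1 : K) else 0) = 0
        rw [if_neg]
        intro hzW
        apply hz
        apply Subtype.ext
        apply huniq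
        refine ⟨z.2, ?_⟩
        rw [hρ z, Submodule.span_singleton_le_iff_mem]
        exact hzW
      · intro h
        exact absurd (Finset.mem_univ _) h
    rw [Finset.sum_congr rfl fun O _ => h2 O, Finset.sum_const, Finset.card_univ,
      nsmul_eq_mul] at h1
    have h3 : ∑ x : V with x ≠ 0 ∧ Q x = 0, F1 x = -1 := by
      have h4 : ∑ x : V with x ≠ 0 ∧ Q x = 0, F1 x = ∑ x : V, (F1 x - if x = 0 then 1 else 0) := by
        rw [Finset.sum_filter]
        refine Finset.sum_congr rfl fun x _ => ?_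
        by_cases hx : x = 0
        · subst hx
          simp [F1]
        · by_cases hxW : x ∈ W
          · rw [if_pos ⟨hx, hW x hxW⟩, if_neg hx, sub_zero]
          · have : F1 x = 0 := if_neg hxW
            rw [this, if_neg hx]
            split_ifs <;> simp
      rw [h4, Finset.sum_sub_distrib, Finset.sum_ite_eq' Finset.univ (0 : V) fun _ => (1 : K),
        if_pos (Finset.mem_univ _)]
      have h5 : ∑ x : V, F1 x = ((Fintype.card W : ℕ) : K) := by
        rw [Fintype.card_subtype, Finset.card_filter]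
        push_cast
        rfl
      rw [h5, Module.card_eq_pow_finrank (K := K), hWr, Nat.cast_pow,
        FiniteField.cast_card_eq_zero, zero_pow hr1.ne', zero_sub]
    rw [h3] at h1
    linear_combination h1
  -- two points of one part
  have hne : Nonempty P := by
    by_contra hno
    rw [not_nonempty_iff] at hno
    rw [Fintype.card_eq_zero, Nat.cast_zero] at hcard
    exact zero_ne_one hcard
  obtain ⟨O⟩ := hne
  have hO := hP.1 _ O.2
  obtain ⟨ρ, hρ0, hρ⟩ := hrep O
  have hρs := hsingρ O ρ hρ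
  have hfO : Fintype ↥O.1 := Fintype.ofFinite _
  have hcO := hO.card_ge hQ hr hW hWr hWd
  have h2 : 1 < Fintype.card ↥O.1 := by
    have : 0 < Fintype.card K ^ d := pow_pos Fintype.card_pos d
    omega
  obtain ⟨i, j, hij⟩ := Fintype.exists_pair_of_one_lt_card h2
  have hMij : M (ρ i) (ρ j) = 1 := by
    apply FiniteField.pow_card_sub_one_eq_one
    refine hO.pol_ne hr ?_ ?_ ?_
    · rw [← hρ i]; exact i.2
    · rw [← hρ j]; exact j.2
    · rw [← hρ i, ← hρ j]
      exact fun h => hij (Subtype.ext h)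
  have htot := sum_partition hP (fun x => M x (ρ i) * M x (ρ j))
  rw [Finset.sum_congr rfl fun O' _ => hT O' (ρ i) (ρ j) (hρs i) (hρs j), Finset.sum_const,
    Finset.card_univ, nsmul_eq_mul, hcard, hMij, one_mul] at htot
  have hzero : ∑ x : V with x ≠ 0 ∧ Q x = 0, M x (ρ i) * M x (ρ j) = 0 := by
    refine Eq.trans ?_ (sum_sing_eq_zero (Q := Q) hdim (ρ i) (ρ j))
    rw [Finset.sum_filter, Finset.sum_filter]
    refine Finset.sum_congr rfl fun x _ => ?_
    by_cases hx : x = 0
    · subst hx
      simp [hq1.ne', ← hq]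
    · by_cases hQx : Q x = 0
      · rw [if_pos ⟨hx, hQx⟩, if_pos hQx]
      · rw [if_neg (fun h => hQx h.2), if_neg hQx]
  rw [hzero] at htot
  exact zero_ne_one htot

end Partition

end Pool.Agent.Lib.MP_017654_co
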