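import Mathlib

/-!
# Polar spaces, ovoids and partitions into ovoids

A polar space is described by the predicate `ts` which says that a subspace of `V` is
totally isotropic (totally singular). Points and maximal subspaces are subspaces of `V`.
-/

set_option autoImplicit false

namespace Pool.Agent.Lib.MP_017654_co

open Module

section Defs

variable {K V : Type*} [Field K] [AddCommGroup V] [Module K V]

/-- `W` is totally singular for the quadratic form `Q`: the form vanishes on `W`. -/
def TotSing (Q : QuadraticForm K V) (W : Submodule K V) : Prop := ∀ x ∈ W, Q x = 0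

/-- `Q` is non-degenerate: its polar form has zero radical. -/
def NonDeg (Q : QuadraticForm K V) : Prop :=
  ∀ x : V, (∀ y : V, QuadraticMap.polar Q x y = 0) → x = 0

/-- `W` is totally isotropic for the sesquilinear form `h`: the form vanishes on `W`. -/
def TotIso (h : V → V → K) (W : Submodule K V) : Prop := ∀ x ∈ W, ∀ y ∈ W, h x y = 0

/-- `h` is a non-degenerate Hermitian form on `V` with respect to `a ↦ a ^ q`. -/
structure IsHermForm (q : ℕ) (h : V → V → K) : Prop where
  add_left : ∀ x y z, h (x + y) z = h x z + h y z
  smul_left : ∀ (a : K) (x y : V), h (a • x) y = a * h x y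
  symm : ∀ x y, h y x = h x y ^ q
  nondeg : ∀ x, (∀ y, h x y = 0) → x = 0

/-- `r` is the Witt index: the largest dimension of a totally isotropic subspace. -/
def WittIndex (ts : Submodule K V → Prop) (r : ℕ) : Prop :=
  (∃ W, ts W ∧ finrank K W = r) ∧ ∀ W, ts W → finrank K W ≤ r

/-- Points of the polar space: totally isotropic subspaces of dimension one. -/
def IsPoint (ts : Submodule K V → Prop) (x : Submodule K V) : Prop := ts x ∧ finrank K x = 1

/-- Maximal subspaces of a polar space of Witt index `r`: totally isotropic subspaces of
dimension `r`. -/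
def IsMax (ts : Submodule K V → Prop) (r : ℕ) (M : Submodule K V) : Prop :=
  ts M ∧ finrank K M = r

/-- An ovoid: a set of points meeting every maximal subspace in exactly one point. -/
def IsOvoid (ts : Submodule K V → Prop) (r : ℕ) (O : Set (Submodule K V)) : Prop :=
  (∀ x ∈ O, IsPoint ts x) ∧ ∀ M, IsMax ts r M → ∃! x, x ∈ O ∧ x ≤ M

/-- A partition of the point set into ovoids: a set `P` of ovoids such that every point lies in
exactly one member of `P`. -/
def IsOvoidPartition (ts : Submodule K V → Prop) (r : ℕ) (P : Set (Set (Submodule K V))) : Prop :=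
  (∀ O ∈ P, IsOvoid ts r O) ∧ ∀ x, IsPoint ts x → ∃! O, O ∈ P ∧ x ∈ O

end Defs

end Pool.Agent.Lib.MP_017654_co
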