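import Pool.Agent.Lib.MP_017654_co.Defs

/-!
# The Hermitian surface `H(3, q ^ 2)` has a partition into ovoids

Coordinates `x₀, x₁, x₂, x₃` with `h x y = x₀ y₃^q + x₃ y₀^q + a x₁ y₁^q + b x₂ y₂^q`.
The parts are the plane section `x₂ = 0` and, for `c` in `K`, the set of points with `x₂ ≠ 0`,
`x₁ = c x₀` if `x₀ ≠ 0`, and `x₃ = - a c^q x₁` if `x₀ = 0`.
-/

set_option autoImplicit false

namespace Pool.Agent.Lib.MP_017654_co

open Module

section Points

variable {K V : Type*} [Field K] [AddCommGroup V] [Module K V]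

theorem exists_span_of_finrank_one {x : Submodule K V} (hx : finrank K x = 1) :
    ∃ v : V, v ≠ 0 ∧ x = Submodule.span K {v} := by
  obtain ⟨v, hv, hw⟩ := finrank_eq_one_iff'.1 hx
  refine ⟨v, fun h => hv (Subtype.ext h), ?_⟩
  apply le_antisymm
  · intro w hwx
    obtain ⟨c, hc⟩ := hw ⟨w, hwx⟩
    rw [Submodule.mem_span_singleton]
    exact ⟨c, congrArg Subtype.val hc⟩
  · rw [Submodule.span_singleton_le_iff_mem]
    exact v.2

theorem finrank_span_one {v : V} (hv : v ≠ 0) : finrank K (Submodule.span K {v}) = 1 :=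
  finrank_span_singleton hv

end Points

section Frob

variable {K : Type*} [Field K] [Fintype K] {q : ℕ}

theorem q_pos (hq : Fintype.card K = q ^ 2) : 0 < q := by
  rcases Nat.eq_zero_or_pos q with h | h
  · subst h
    have := Fintype.card_pos (α := K)
    omega
  · exact h

theorem add_pow_q (hq : Fintype.card K = q ^ 2) (a b : K) : (a + b) ^ q = a ^ q + b ^ q := by
  obtain ⟨p, hp⟩ := CharP.exists K
  obtain ⟨n, hprime, hn⟩ := FiniteField.card K p
  have : Fact p.Prime := ⟨hprime⟩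
  have hdvd : q ∣ p ^ (n : ℕ) := by
    rw [← hn, hq]
    exact Dvd.intro_left (q ^ 1) (by ring)
  obtain ⟨k, -, hk⟩ := (Nat.dvd_prime_pow hprime).1 hdvd
  rw [hk]
  exact add_pow_char_pow a b p k

theorem pow_q_q (hq : Fintype.card K = q ^ 2) (a : K) : (a ^ q) ^ q = a := by
  rw [← pow_mul, ← sq, ← hq]
  exact FiniteField.pow_card a

theorem neg_pow_q (hq : Fintype.card K = q ^ 2) (a : K) : (-a) ^ q = -(a ^ q) := by
  have h := add_pow_q hq a (-a)
  rw [add_neg_cancel, zero_pow (q_pos hq).ne'] at h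
  exact (neg_eq_of_add_eq_zero_right h.symm).symm

end Frob

section Fan

variable {K V : Type*} [Field K] [Fintype K] [AddCommGroup V] [Module K V]

/-- the coordinate form of a Hermitian form -/
structure Coord (q : ℕ) (h : V → V → K) (a b : K) (φ : V ≃ₗ[K] (Fin 4 → K)) : Prop where
  ha : a ≠ 0
  hb : b ≠ 0
  form : ∀ x y, h x y = φ x 0 * φ y 3 ^ q + φ x 3 * φ y 0 ^ q + a * (φ x 1 * φ y 1 ^ q)
    + b * (φ x 2 * φ y 2 ^ q)

/-- the colouring condition -/
def Good (q : ℕ) (a : K) (φ : V ≃ₗ[K] (Fin 4 → K)) (c : K) (v : V) : Prop :=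
  φ v 2 ≠ 0 ∧ (φ v 0 ≠ 0 → φ v 1 = c * φ v 0) ∧ (φ v 0 = 0 → φ v 3 = -(a * c ^ q * φ v 1))

theorem Good.smul {q : ℕ} {a : K} {φ : V ≃ₗ[K] (Fin 4 → K)} {c : K} {v : V}
    (h : Good q a φ c v) {t : K} (ht : t ≠ 0) : Good q a φ c (t • v) := by
  obtain ⟨h1, h2, h3⟩ := h
  refine ⟨?_, ?_, ?_⟩
  · simpa [ht] using h1
  · intro h0
    have h0' : φ v 0 ≠ 0 := by
      intro h; apply h0; simp [h]
    simp only [map_smul, Pi.smul_apply, smul_eq_mul, h2 h0']
    ring
  · intro h0
    have h0' : φ v 0 = 0 := by simpa [ht] using h0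
    simp only [map_smul, Pi.smul_apply, smul_eq_mul, h3 h0']
    ring

variable {q : ℕ} {h : V → V → K} {a b : K} {φ : V ≃ₗ[K] (Fin 4 → K)}

/-- an isotropic vector with `x₀ = 0`: `x₁ = 0` iff `x₂ = 0` -/
theorem Coord.one_iff_two (hq : Fintype.card K = q ^ 2) (H : Coord q h a b φ) {v : V}
    (hv : h v v = 0) (h0 : φ v 0 = 0) : φ v 1 = 0 ↔ φ v 2 = 0 := by
  rw [H.form, h0] at hv
  have hq0 := (q_pos hq).ne'
  simp only [zero_mul, zero_pow hq0, mul_zero, zero_add] at hv
  constructor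
  · intro h1
    rw [h1] at hv
    simp only [zero_mul, mul_zero, zero_add, mul_eq_zero, H.hb, false_or] at hv
    rcases hv with hv | hv
    · exact hv
    · exact pow_eq_zero_iff hq0 |>.1 hv
  · intro h1
    rw [h1] at hv
    simp only [zero_mul, mul_zero, add_zero, mul_eq_zero, H.ha, false_or] at hv
    rcases hv with hv | hv
    · exact hv
    · exact pow_eq_zero_iff hq0 |>.1 hv

theorem eq_zero_of_coords {v : V} (h0 : φ v 0 = 0) (h1 : φ v 1 = 0) (h2 : φ v 2 = 0)
    (h3 : φ v 3 = 0) : v = 0 := by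
  rw [← map_eq_zero_iff φ φ.injective]
  ext i
  fin_cases i <;> assumption

/-- a subspace of dimension two meets every hyperplane -/
theorem exists_mem_ker {M : Submodule K V} (hM : finrank K M = 2) (f : V →ₗ[K] K) :
    ∃ v ∈ M, v ≠ 0 ∧ f v = 0 := by
  have hfin : FiniteDimensional K M := Module.finite_of_finrank_pos (by omega)
  have h1 : finrank K (LinearMap.range (f.comp M.subtype)) ≤ 1 := by
    calc finrank K (LinearMap.range (f.comp M.subtype)) ≤ finrank K K := Submodule.finrank_le _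
      _ = 1 := finrank_self K
  have h2 := LinearMap.finrank_range_add_finrank_ker (f.comp M.subtype)
  have h3 : 0 < finrank K (LinearMap.ker (f.comp M.subtype)) := by omega
  have h4 : LinearMap.ker (f.comp M.subtype) ≠ ⊥ := by
    intro h
    rw [h, finrank_bot] at h3
    omega
  obtain ⟨v, hv, hv0⟩ := Submodule.exists_mem_ne_zero_of_ne_bot h4
  exact ⟨v, v.2, fun h => hv0 (Subtype.ext h), hv⟩

/-- coordinate functional -/
def cf (φ : V ≃ₗ[K] (Fin 4 → K)) (i : Fin 4) : V →ₗ[K] K := (LinearMap.proj i).comp φ.toLinearMap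

@[simp] theorem cf_apply (i : Fin 4) (v : V) : cf φ i v = φ v i := rfl

/-- two linearly independent vectors of a subspace of dimension two span it -/
theorem exists_comb {M : Submodule K V} (hM : finrank K M = 2) {y z : V} (hy : y ∈ M) (hz : z ∈ M)
    (hyz : ∀ s t : K, s • y + t • z = 0 → s = 0 ∧ t = 0) {w : V} (hw : w ∈ M) :
    ∃ s t : K, w = s • y + t • z := by
  have hfin : FiniteDimensional K M := Module.finite_of_finrank_pos (by omega)
  have hli : LinearIndependent K ![(⟨y, hy⟩ : M), ⟨z, hz⟩] := by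
    rw [LinearIndependent.pair_iff]
    intro s t hst
    exact hyz s t (congrArg Subtype.val hst)
  have hspan := hli.span_eq_top_of_card_eq_finrank (by simp [hM])
  have : (⟨w, hw⟩ : M) ∈ Submodule.span K (Set.range ![(⟨y, hy⟩ : M), ⟨z, hz⟩]) := by
    rw [hspan]; trivial
  rw [Matrix.range_cons, Matrix.range_cons, Matrix.range_empty, Set.union_empty,
    Set.singleton_union, Submodule.mem_span_pair] at this
  obtain ⟨s, t, hst⟩ := this
  exact ⟨s, t, (congrArg Subtype.val hst).symm⟩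

/-- the plane section `x₂ = 0` -/
def PartInf (h : V → V → K) (φ : V ≃ₗ[K] (Fin 4 → K)) : Set (Submodule K V) :=
  {x | IsPoint (TotIso h) x ∧ ∃ v ∈ x, v ≠ 0 ∧ φ v 2 = 0}

/-- the other parts -/
def Part (q : ℕ) (h : V → V → K) (a : K) (φ : V ≃ₗ[K] (Fin 4 → K)) (c : K) :
    Set (Submodule K V) :=
  {x | IsPoint (TotIso h) x ∧ ∃ v ∈ x, v ≠ 0 ∧ Good q a φ c v}

theorem isPoint_span {M : Submodule K V} (hM : TotIso h M) {v : V} (hv : v ∈ M) (h0 : v ≠ 0) :
    IsPoint (TotIso h) (Submodule.span K {v}) := by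
  refine ⟨?_, finrank_span_one h0⟩
  have hle : Submodule.span K {v} ≤ M := by
    rw [Submodule.span_singleton_le_iff_mem]; exact hv
  intro x hx y hy
  exact hM x (hle hx) y (hle hy)

theorem partInf_isOvoid (hq : Fintype.card K = q ^ 2) (H : Coord q h a b φ) :
    IsOvoid (TotIso h) 2 (PartInf h φ) := by
  have hq0 := (q_pos hq).ne'
  refine ⟨fun x hx => hx.1, ?_⟩
  rintro M ⟨hM, hM2⟩
  obtain ⟨v, hvM, hv0, hv2⟩ := exists_mem_ker hM2 (cf φ 2)
  rw [cf_apply] at hv2
  refine ⟨Submodule.span K {v}, ⟨⟨isPoint_span hM hvM hv0, v, Submodule.mem_span_singleton_self v,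
    hv0, hv2⟩, by rw [Submodule.span_singleton_le_iff_mem]; exact hvM⟩, ?_⟩
  rintro x ⟨⟨⟨-, hx1⟩, w, hwx, hw0, hw2⟩, hxM⟩
  -- every vector of `M` with `x₂ = 0` is a multiple of `v`
  obtain ⟨u, hu0, rfl⟩ := exists_span_of_finrank_one hx1
  by_contra hne
  have hwv : ∀ s t : K, s • v + t • w = 0 → s = 0 ∧ t = 0 := by
    intro s t hst
    by_cases ht : t = 0
    · subst ht
      rw [zero_smul, add_zero, smul_eq_zero] at hst
      exact ⟨hst.resolve_right hv0, rfl⟩
    · exfalso
      apply hne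
      have hwv : w ∈ Submodule.span K {v} := by
        rw [Submodule.mem_span_singleton]
        refine ⟨-(t⁻¹ * s), ?_⟩
        have h1 : t • w = -(s • v) := by
          rw [add_comm] at hst
          exact eq_neg_of_add_eq_zero_left hst
        rw [neg_smul, mul_smul, ← smul_neg, ← h1, smul_smul, inv_mul_cancel₀ ht, one_smul]
      obtain ⟨c, hc⟩ := Submodule.mem_span_singleton.1 hwx
      obtain ⟨d, hd⟩ := Submodule.mem_span_singleton.1 hwv
      have hc0 : c ≠ 0 := by
        intro h; rw [h, zero_smul] at hc; exact hw0 hc.symm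
      have hd0 : d ≠ 0 := by
        intro h; rw [h, zero_smul] at hd; exact hw0 hd.symm
      rw [← Submodule.span_singleton_smul_eq (IsUnit.mk0 c hc0) u, hc,
        ← Submodule.span_singleton_smul_eq (IsUnit.mk0 d hd0) v, hd]
  have hwM : w ∈ M := hxM hwx
  -- hence all of `M` lies in `x₂ = 0`
  have hM0 : ∀ y ∈ M, φ y 2 = 0 := by
    intro y hy
    obtain ⟨s, t, rfl⟩ := exists_comb hM2 hvM hwM hwv hy
    simp [hv2, hw2]
  obtain ⟨z, hzM, hz0, hzz⟩ := exists_mem_ker hM2 (cf φ 0)
  rw [cf_apply] at hzz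
  have hz1 : φ z 1 = 0 := (H.one_iff_two hq (hM z hzM z hzM) hzz).2 (hM0 z hzM)
  have hz3 : φ z 3 ≠ 0 := fun h3 => hz0 (eq_zero_of_coords hzz hz1 (hM0 z hzM) h3)
  have hM00 : ∀ y ∈ M, φ y 0 = 0 := by
    intro y hy
    have := hM y hy z hzM
    rw [H.form, hzz, hz1, hM0 z hzM] at this
    simp only [zero_pow hq0, mul_zero, add_zero, mul_eq_zero] at this
    rcases this with h | h
    · exact h
    · exact absurd (pow_eq_zero_iff hq0 |>.1 h) hz3
  obtain ⟨y, hyM, hy0, hy3⟩ := exists_mem_ker hM2 (cf φ 3)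
  rw [cf_apply] at hy3
  exact hy0 (eq_zero_of_coords (hM00 y hyM)
    ((H.one_iff_two hq (hM y hyM y hyM) (hM00 y hyM)).2 (hM0 y hyM)) (hM0 y hyM) hy3)

theorem eq_span_of_mem {x : Submodule K V} (hx : finrank K x = 1) {u w : V} (hu : u ∈ x)
    (hu0 : u ≠ 0) {s : K} (hs : u = s • w) : x = Submodule.span K {w} := by
  obtain ⟨v, hv0, rfl⟩ := exists_span_of_finrank_one hx
  obtain ⟨c, hc⟩ := Submodule.mem_span_singleton.1 hu
  have hc0 : c ≠ 0 := by
    intro h; rw [h, zero_smul] at hc; exact hu0 hc.symm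
  have hs0 : s ≠ 0 := by
    intro h; rw [h, zero_smul] at hs; exact hu0 hs
  rw [← Submodule.span_singleton_smul_eq (IsUnit.mk0 c hc0) v, hc, hs,
    Submodule.span_singleton_smul_eq (IsUnit.mk0 s hs0) w]

theorem indep_of {f : V →ₗ[K] K} {y z : V} (hz : z ≠ 0) (hfz : f z = 0) (hfy : f y ≠ 0) :
    ∀ s t : K, s • y + t • z = 0 → s = 0 ∧ t = 0 := by
  intro s t hst
  have h1 := congrArg f hst
  simp only [map_add, map_smul, smul_eq_mul, hfz, mul_zero, add_zero, map_zero, mul_eq_zero, hfy,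
    or_false] at h1
  subst h1
  rw [zero_smul, zero_add, smul_eq_zero] at hst
  exact ⟨rfl, hst.resolve_right hz⟩

theorem part_isOvoid (hq : Fintype.card K = q ^ 2) (H : Coord q h a b φ) (c : K) :
    IsOvoid (TotIso h) 2 (Part q h a φ c) := by
  have hq0 := (q_pos hq).ne'
  refine ⟨fun x hx => hx.1, ?_⟩
  rintro M ⟨hM, hM2⟩
  by_cases hcase : ∃ e ∈ M, e ≠ 0 ∧ φ e 0 = 0 ∧ φ e 1 = 0 ∧ φ e 2 = 0
  · obtain ⟨e, heM, he0, e0, e1, e2⟩ := hcase
    have e3 : φ e 3 ≠ 0 := fun h3 => he0 (eq_zero_of_coords e0 e1 e2 h3)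
    have hM0 : ∀ y ∈ M, φ y 0 = 0 := by
      intro y hy
      have := hM y hy e heM
      rw [H.form, e0, e1, e2] at this
      simp only [zero_pow hq0, mul_zero, add_zero, mul_eq_zero] at this
      rcases this with h | h
      · exact h
      · exact absurd (pow_eq_zero_iff hq0 |>.1 h) e3
    obtain ⟨v, hvM, hv0, hv3⟩ := exists_mem_ker hM2 (cf φ 3)
    rw [cf_apply] at hv3
    have hv00 := hM0 v hvM
    have hiff := H.one_iff_two hq (hM v hvM v hvM) hv00
    have hv2 : φ v 2 ≠ 0 := fun h2 => hv0 (eq_zero_of_coords hv00 (hiff.2 h2) h2 hv3)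
    have hve : ∀ s t : K, s • e + t • v = 0 → s = 0 ∧ t = 0 :=
      indep_of (f := cf φ 3) hv0 hv3 e3
    set t : K := -(a * c ^ q * φ v 1) / φ e 3 with ht
    have hte : t * φ e 3 = -(a * c ^ q * φ v 1) := by rw [ht, div_mul_cancel₀ _ e3]
    have hw : Good q a φ c (v + t • e) := by
      refine ⟨?_, ?_, ?_⟩
      · simpa [e2] using hv2
      · intro h0
        exact absurd (by simp [hv00, e0]) h0
      · intro _
        simp only [map_add, map_smul, Pi.add_apply, Pi.smul_apply, smul_eq_mul, hv3, e1, mul_zero,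
          add_zero, zero_add]
        exact hte
    have hwM : v + t • e ∈ M := M.add_mem hvM (M.smul_mem t heM)
    have hw0 : v + t • e ≠ 0 := by
      intro h
      apply hw.1
      rw [h]; simp
    refine ⟨Submodule.span K {v + t • e}, ⟨⟨isPoint_span hM hwM hw0, _,
      Submodule.mem_span_singleton_self _, hw0, hw⟩,
      by rw [Submodule.span_singleton_le_iff_mem]; exact hwM⟩, ?_⟩
    rintro x ⟨⟨⟨-, hx1⟩, u, hux, hu0, hu2, -, hu4⟩, hxM⟩
    obtain ⟨r, s, rfl⟩ := exists_comb hM2 heM hvM hve (hxM hux)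
    have h4 := hu4 (hM0 _ (hxM hux))
    simp only [map_add, map_smul, Pi.add_apply, Pi.smul_apply, smul_eq_mul, hv3, e1, mul_zero,
      add_zero, zero_add] at h4
    have hr : r = s * t := by
      apply mul_right_cancel₀ e3
      rw [h4, mul_assoc s t, hte]
      ring
    apply eq_span_of_mem hx1 hux hu0 (s := s)
    rw [hr, smul_add, smul_smul, add_comm]
  · obtain ⟨z, hzM, hz0, hz00⟩ := exists_mem_ker hM2 (cf φ 0)
    rw [cf_apply] at hz00
    have hiff := H.one_iff_two hq (hM z hzM z hzM) hz00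
    have hz2 : φ z 2 ≠ 0 := fun h2 => hcase ⟨z, hzM, hz0, hz00, hiff.2 h2, h2⟩
    have hz1 : φ z 1 ≠ 0 := fun h1 => hz2 (hiff.1 h1)
    obtain ⟨y, hyM, hy⟩ : ∃ y ∈ M, φ y 0 = 1 := by
      by_contra hno
      push Not at hno
      have hM0 : ∀ y ∈ M, φ y 0 = 0 := by
        intro y hy
        by_contra h0
        apply hno ((φ y 0)⁻¹ • y) (M.smul_mem _ hy)
        simp [h0]
      obtain ⟨v, hvM, hv0, hv1⟩ := exists_mem_ker hM2 (cf φ 1)
      rw [cf_apply] at hv1
      exact hcase ⟨v, hvM, hv0, hM0 v hvM, hv1,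
        (H.one_iff_two hq (hM v hvM v hvM) (hM0 v hvM)).1 hv1⟩
    obtain ⟨w, hwM, hw0, hw1⟩ : ∃ w ∈ M, φ w 0 = 1 ∧ φ w 1 = c := by
      refine ⟨y + ((c - φ y 1) / φ z 1) • z, M.add_mem hyM (M.smul_mem _ hzM), ?_, ?_⟩
      · simp [hy, hz00]
      · simp only [map_add, map_smul, Pi.add_apply, Pi.smul_apply, smul_eq_mul]
        rw [div_mul_cancel₀ _ hz1]
        ring
    have hwne : w ≠ 0 := by
      intro h; rw [h] at hw0; simp at hw0
    have hind : ∀ s t : K, s • w + t • z = 0 → s = 0 ∧ t = 0 :=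
      indep_of (f := cf φ 0) hz0 hz00 (by rw [cf_apply, hw0]; exact one_ne_zero)
    have hzw : φ z 3 + a * (φ z 1 * c ^ q) + b * (φ z 2 * φ w 2 ^ q) = 0 := by
      have := hM z hzM w hwM
      rw [H.form, hz00, hw0, hw1] at this
      simpa using this
    by_cases hw2 : φ w 2 = 0
    · have hgood : Good q a φ c z := by
        refine ⟨hz2, fun h0 => absurd hz00 h0, fun _ => ?_⟩
        rw [hw2, zero_pow hq0, mul_zero, mul_zero, add_zero] at hzw
        rw [eq_neg_of_add_eq_zero_left hzw]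
        ring
      refine ⟨Submodule.span K {z}, ⟨⟨isPoint_span hM hzM hz0, _,
        Submodule.mem_span_singleton_self _, hz0, hgood⟩,
        by rw [Submodule.span_singleton_le_iff_mem]; exact hzM⟩, ?_⟩
      rintro x ⟨⟨⟨-, hx1⟩, u, hux, hu0, hu2, hu3, -⟩, hxM⟩
      obtain ⟨s, r, rfl⟩ := exists_comb hM2 hwM hzM hind (hxM hux)
      simp only [map_add, map_smul, Pi.add_apply, Pi.smul_apply, smul_eq_mul, hw0, hw1, hw2, hz00,
        mul_zero, add_zero, zero_add, mul_one] at hu2 hu3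
      by_cases hs : s = 0
      · apply eq_span_of_mem hx1 hux hu0 (s := r)
        rw [hs, zero_smul, zero_add]
      · exfalso
        have h3 := hu3 hs
        have hr : r * φ z 1 = 0 := by linear_combination h3
        rcases mul_eq_zero.1 hr with h | h
        · exact hu2 (by rw [h, zero_mul])
        · exact hz1 h
    · have hgood : Good q a φ c w := by
        refine ⟨hw2, fun _ => by rw [hw1, hw0, mul_one], fun h0 => ?_⟩
        rw [hw0] at h0
        exact absurd h0 one_ne_zero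
      refine ⟨Submodule.span K {w}, ⟨⟨isPoint_span hM hwM hwne, _,
        Submodule.mem_span_singleton_self _, hwne, hgood⟩,
        by rw [Submodule.span_singleton_le_iff_mem]; exact hwM⟩, ?_⟩
      rintro x ⟨⟨⟨-, hx1⟩, u, hux, hu0, hu2, hu3, hu4⟩, hxM⟩
      obtain ⟨s, r, rfl⟩ := exists_comb hM2 hwM hzM hind (hxM hux)
      simp only [map_add, map_smul, Pi.add_apply, Pi.smul_apply, smul_eq_mul, hw0, hw1, hz00,
        mul_zero, add_zero, mul_one] at hu2 hu3 hu4
      by_cases hs : s = 0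
      · exfalso
        have h4 := hu4 hs
        rw [hs] at h4 hu0
        simp only [zero_mul, zero_add] at h4
        have hr : r ≠ 0 := by
          intro hr; apply hu0; rw [hr]; simp
        have h5 : φ z 3 = -(a * c ^ q * φ z 1) := by
          apply mul_left_cancel₀ hr
          rw [h4]; ring
        rw [h5] at hzw
        have h6 : b * (φ z 2 * φ w 2 ^ q) = 0 := by linear_combination hzw
        rcases mul_eq_zero.1 h6 with h | h
        · exact H.hb h
        · rcases mul_eq_zero.1 h with h | h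
          · exact hz2 h
          · exact hw2 (pow_eq_zero_iff hq0 |>.1 h)
      · have h3 := hu3 hs
        have hr : r * φ z 1 = 0 := by linear_combination h3
        have hr0 : r = 0 := (mul_eq_zero.1 hr).resolve_right hz1
        apply eq_span_of_mem hx1 hux hu0 (s := s)
        rw [hr0, zero_smul, add_zero]

theorem exists_partition_of_coord (hq : Fintype.card K = q ^ 2) (H : Coord q h a b φ) :
    ∃ P, IsOvoidPartition (TotIso h) 2 P := by
  have hq0 := (q_pos hq).ne'
  refine ⟨{O | O = PartInf h φ ∨ ∃ c, O = Part q h a φ c}, ?_, ?_⟩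
  · rintro O (rfl | ⟨c, rfl⟩)
    · exact partInf_isOvoid hq H
    · exact part_isOvoid hq H c
  · intro x hx
    obtain ⟨v, hv0, rfl⟩ := exists_span_of_finrank_one hx.2
    have hvv : h v v = 0 := hx.1 v (Submodule.mem_span_singleton_self v) v
      (Submodule.mem_span_singleton_self v)
    by_cases hv2 : φ v 2 = 0
    · refine ⟨PartInf h φ, ⟨Or.inl rfl, hx, v, Submodule.mem_span_singleton_self v, hv0, hv2⟩, ?_⟩
      rintro O ⟨rfl | ⟨c, rfl⟩, hO⟩
      · rfl
      · exfalso
        obtain ⟨-, u, hux, hu0, hu2, -⟩ := hO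
        obtain ⟨s, rfl⟩ := Submodule.mem_span_singleton.1 hux
        exact hu2 (by simp [hv2])
    · have key : ∃ c, Good q a φ c v ∧ ∀ c', Good q a φ c' v → c' = c := by
        have ha := H.ha
        by_cases h0 : φ v 0 = 0
        · have hv1 : φ v 1 ≠ 0 := fun h1 => hv2 ((H.one_iff_two hq hvv h0).1 h1)
          have ha1 : a * φ v 1 ≠ 0 := mul_ne_zero H.ha hv1
          refine ⟨(-φ v 3 / (a * φ v 1)) ^ q, ⟨hv2, fun h => absurd h0 h, fun _ => ?_⟩, ?_⟩
          · rw [pow_q_q hq]
            have : a * (-φ v 3 / (a * φ v 1)) * φ v 1 = -φ v 3 := by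
              field_simp
            rw [this, neg_neg]
          · rintro c' ⟨-, -, h3⟩
            have h3 := h3 h0
            have h4 : c' ^ q = -φ v 3 / (a * φ v 1) := by
              rw [h3, neg_neg]
              field_simp
            rw [← h4, pow_q_q hq]
        · refine ⟨φ v 1 / φ v 0, ⟨hv2, fun _ => by rw [div_mul_cancel₀ _ h0],
            fun h => absurd h h0⟩, ?_⟩
          rintro c' ⟨-, h3, -⟩
          rw [h3 h0, mul_div_cancel_right₀ _ h0]
      obtain ⟨c, hc, huniq⟩ := key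
      refine ⟨Part q h a φ c, ⟨Or.inr ⟨c, rfl⟩, hx, v, Submodule.mem_span_singleton_self v, hv0,
        hc⟩, ?_⟩
      rintro O ⟨rfl | ⟨c', rfl⟩, hO⟩
      · exfalso
        obtain ⟨-, u, hux, hu0, hu2⟩ := hO
        obtain ⟨s, rfl⟩ := Submodule.mem_span_singleton.1 hux
        have hs : s ≠ 0 := by
          intro h; apply hu0; rw [h, zero_smul]
        simp only [map_smul, Pi.smul_apply, smul_eq_mul, mul_eq_zero, hs, false_or] at hu2
        exact hv2 hu2
      · obtain ⟨-, u, hux, hu0, hg⟩ := hO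
        obtain ⟨s, rfl⟩ := Submodule.mem_span_singleton.1 hux
        have hs : s ≠ 0 := by
          intro h; apply hu0; rw [h, zero_smul]
        have := hg.smul (inv_ne_zero hs)
        rw [smul_smul, inv_mul_cancel₀ hs, one_smul] at this
        rw [huniq c' this]

end Fan

section Basis

variable {K V : Type*} [Field K] [Fintype K] [AddCommGroup V] [Module K V]
variable {q : ℕ} {h : V → V → K}

theorem IsHermForm.add_right (hq : Fintype.card K = q ^ 2) (H : IsHermForm q h) (x y z : V) :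
    h x (y + z) = h x y + h x z := by
  rw [H.symm (y + z) x, H.add_left, add_pow_q hq, ← H.symm, ← H.symm]

theorem IsHermForm.smul_right (H : IsHermForm q h) (c : K) (x y : V) :
    h x (c • y) = c ^ q * h x y := by
  rw [H.symm (c • y) x, H.smul_left, mul_pow, ← H.symm]

/-- `x ↦ h x y` as a linear functional -/
def IsHermForm.lin (H : IsHermForm q h) (y : V) : V →ₗ[K] K where
  toFun x := h x y
  map_add' x z := H.add_left x z y
  map_smul' c x := H.smul_left c x y

@[simp] theorem IsHermForm.lin_apply (H : IsHermForm q h) (x y : V) : H.lin y x = h x y := rfl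

theorem exists_trace_ne (hq : Fintype.card K = q ^ 2) : ∃ s : K, s + s ^ q ≠ 0 := by
  by_contra hno
  push Not at hno
  have h1 : (1 : K) + 1 = 0 := by simpa using hno 1
  have h2 : ∀ s : K, s ^ q = s := by
    intro s
    have h3 := hno s
    have h4 : s + s = 0 := by
      rw [← two_mul, ← one_add_one_eq_two, h1, zero_mul]
    have h5 : s ^ q = s := by
      have : s + s ^ q = s + s := by rw [h3, h4]
      exact add_left_cancel this
    exact h5
  have hq2 : 2 ≤ q := by
    have := Fintype.one_lt_card (α := K)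
    rw [hq] at this
    by_contra hlt
    have : q ≤ 1 := by omega
    interval_cases q <;> omega
  have h6 : ∀ x : Kˣ, x ^ (q - 1) = 1 := by
    intro x
    have h7 : x ^ q = x := Units.ext (by simpa using h2 x)
    have h8 : x ^ (q - 1) * x = 1 * x := by
      rw [← pow_succ, Nat.sub_add_cancel (by omega), h7, one_mul]
    exact mul_right_cancel h8
  have h9 := (FiniteField.forall_pow_eq_one_iff K (q - 1)).1 h6
  rw [hq] at h9
  have h10 := Nat.le_of_dvd (by omega) h9
  have h11 : q < q ^ 2 := by nlinarith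
  omega

/-- polarisation: a Hermitian form with only isotropic vectors on `U` vanishes on `U` -/
theorem IsHermForm.exists_aniso (hq : Fintype.card K = q ^ 2) (H : IsHermForm q h)
    {U : Submodule K V} (hU : ∀ v ∈ U, (∀ y ∈ U, h v y = 0) → v = 0)
    (hne : ∃ v ∈ U, v ≠ 0) : ∃ e ∈ U, h e e ≠ 0 := by
  by_contra hno
  push Not at hno
  obtain ⟨v, hvU, hv0⟩ := hne
  apply hv0
  apply hU v hvU
  intro y hy
  by_contra hα
  obtain ⟨s, hs⟩ := exists_trace_ne hq
  apply hs
  have h1 := hno ((s / h v y) • v + y) (U.add_mem (U.smul_mem _ hvU) hy)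
  rw [H.add_left, H.add_right hq, H.add_right hq, H.smul_left, H.smul_right, H.smul_left,
    H.smul_right, hno v hvU, hno y hy, H.symm v y, div_mul_cancel₀ _ hα, ← mul_pow,
    div_mul_cancel₀ _ hα] at h1
  simpa using h1

theorem exists_coord [FiniteDimensional K V] (hq : Fintype.card K = q ^ 2)
    (hV : finrank K V = 4) (H : IsHermForm q h) (hW : WittIndex (TotIso h) 2) :
    ∃ (a b : K) (φ : V ≃ₗ[K] (Fin 4 → K)), Coord q h a b φ := by
  have hq0 := (q_pos hq).ne'
  obtain ⟨⟨W, hWiso, hW2⟩, -⟩ := hW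
  obtain ⟨e3, he3W, he30, -⟩ := exists_mem_ker hW2 (0 : V →ₗ[K] K)
  have h33 : h e3 e3 = 0 := hWiso e3 he3W e3 he3W
  obtain ⟨y, hy⟩ : ∃ y, h e3 y ≠ 0 := by
    by_contra hno
    push Not at hno
    exact he30 (H.nondeg e3 hno)
  have hy' : h y e3 ≠ 0 := by
    rw [H.symm e3 y]
    exact pow_ne_zero q hy
  obtain ⟨s, hs⟩ := exists_trace_ne hq
  -- the hyperbolic pair
  obtain ⟨e0, h03, h30, h00⟩ : ∃ e0, h e0 e3 = 1 ∧ h e3 e0 = 1 ∧ h e0 e0 = 0 := by
    obtain ⟨f, hf3⟩ : ∃ f, h f e3 = 1 :=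
      ⟨(h y e3)⁻¹ • y, by rw [H.smul_left, inv_mul_cancel₀ hy']⟩
    have h3f : h e3 f = 1 := by rw [H.symm f e3, hf3, one_pow]
    have hcc : h f f ^ q = h f f := (H.symm f f).symm
    set τ : K := s + s ^ q with hτ
    have hττ : τ ^ q = τ := by rw [hτ, add_pow_q hq, pow_q_q hq, add_comm]
    refine ⟨f + (-(h f f / τ) * s) • e3, ?_, ?_, ?_⟩
    · rw [H.add_left, H.smul_left, h33, hf3, mul_zero, add_zero]
    · rw [H.add_right hq, H.smul_right, h33, h3f, mul_zero, add_zero]
    · rw [H.add_left, H.add_right hq, H.add_right hq, H.smul_right, H.smul_left, H.smul_left,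
        H.smul_right, h33, h3f, hf3, mul_pow, neg_pow_q hq, div_pow, hcc, hττ]
      field_simp
      rw [hτ]
      ring
  have hdec1 : ∀ x, h (x - h x e3 • e0 - h x e0 • e3) e0 = 0 ∧
      h (x - h x e3 • e0 - h x e0 • e3) e3 = 0 := by
    intro x
    constructor
    · rw [← H.lin_apply, map_sub, map_sub, map_smul, map_smul]
      simp [h00, h30]
    · rw [← H.lin_apply, map_sub, map_sub, map_smul, map_smul]
      simp [h33, h03]
  -- the first anisotropic vector
  set U : Submodule K V := LinearMap.ker (H.lin e0) ⊓ LinearMap.ker (H.lin e3) with hU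
  have memU : ∀ x, x ∈ U ↔ h x e0 = 0 ∧ h x e3 = 0 := by
    intro x
    rw [hU, Submodule.mem_inf, LinearMap.mem_ker, LinearMap.mem_ker, H.lin_apply, H.lin_apply]
  have swap0 : ∀ x z, h x z = 0 → h z x = 0 := by
    intro x z hxz
    rw [H.symm x z, hxz, zero_pow hq0]
  have hUnd : ∀ v ∈ U, (∀ y ∈ U, h v y = 0) → v = 0 := by
    intro v hv hvy
    obtain ⟨hv0, hv3⟩ := (memU v).1 hv
    apply H.nondeg
    intro x
    have h1 := hvy _ ((memU _).2 (hdec1 x))
    have h2 : x = (x - h x e3 • e0 - h x e0 • e3) + (h x e3 • e0 + h x e0 • e3) := by abel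
    rw [h2, H.add_right hq, h1, H.add_right hq, H.smul_right, H.smul_right, hv0, hv3]
    simp
  -- dimension arguments
  have hker : ∀ (g : V →ₗ[K] (Fin 3 → K)), ∃ v, v ≠ 0 ∧ g v = 0 := by
    intro g
    have h1 : finrank K (LinearMap.range g) ≤ 3 := by
      calc finrank K (LinearMap.range g) ≤ finrank K (Fin 3 → K) := Submodule.finrank_le _
        _ = 3 := by simp
    have h2 := LinearMap.finrank_range_add_finrank_ker g
    have h3 : 0 < finrank K (LinearMap.ker g) := by omega
    have h4 : LinearMap.ker g ≠ ⊥ := by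
      intro h
      rw [h, finrank_bot] at h3
      omega
    obtain ⟨v, hv, hv0⟩ := Submodule.exists_mem_ne_zero_of_ne_bot h4
    exact ⟨v, hv0, hv⟩
  have hUne : ∃ v ∈ U, v ≠ 0 := by
    obtain ⟨v, hv0, hv⟩ := hker (LinearMap.pi ![H.lin e0, H.lin e3, 0])
    refine ⟨v, (memU v).2 ⟨?_, ?_⟩, hv0⟩
    · simpa using congrFun hv 0
    · simpa using congrFun hv 1
  obtain ⟨e1, he1U, h11⟩ := H.exists_aniso hq hUnd hUne
  obtain ⟨h10, h13⟩ := (memU e1).1 he1U
  have h01 := swap0 _ _ h10
  have h31 := swap0 _ _ h13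
  set U2 : Submodule K V := U ⊓ LinearMap.ker (H.lin e1) with hU2
  have memU2 : ∀ x, x ∈ U2 ↔ h x e0 = 0 ∧ h x e3 = 0 ∧ h x e1 = 0 := by
    intro x
    rw [hU2, Submodule.mem_inf, memU, LinearMap.mem_ker, H.lin_apply, and_assoc]
  have hU2nd : ∀ v ∈ U2, (∀ y ∈ U2, h v y = 0) → v = 0 := by
    intro v hv hvy
    obtain ⟨hv0, hv3, hv1⟩ := (memU2 v).1 hv
    apply hUnd v ((memU v).2 ⟨hv0, hv3⟩)
    intro x hx
    obtain ⟨hx0, hx3⟩ := (memU x).1 hx
    have h1 : x - (h x e1 / h e1 e1) • e1 ∈ U2 := by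
      rw [memU2]
      refine ⟨?_, ?_, ?_⟩
      · rw [← H.lin_apply, map_sub, map_smul]; simp [hx0, h10]
      · rw [← H.lin_apply, map_sub, map_smul]; simp [hx3, h13]
      · rw [← H.lin_apply, map_sub, map_smul]; simp [h11]
    have h2 : x = (x - (h x e1 / h e1 e1) • e1) + (h x e1 / h e1 e1) • e1 := by abel
    rw [h2, H.add_right hq, hvy _ h1, H.smul_right, hv1]
    simp
  have hU2ne : ∃ v ∈ U2, v ≠ 0 := by
    obtain ⟨v, hv0, hv⟩ := hker (LinearMap.pi ![H.lin e0, H.lin e3, H.lin e1])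
    refine ⟨v, (memU2 v).2 ⟨?_, ?_, ?_⟩, hv0⟩
    · simpa using congrFun hv 0
    · simpa using congrFun hv 1
    · simpa using congrFun hv 2
  obtain ⟨e2, he2U, h22⟩ := H.exists_aniso hq hU2nd hU2ne
  obtain ⟨h20, h23, h21⟩ := (memU2 e2).1 he2U
  have h02 := swap0 _ _ h20
  have h32 := swap0 _ _ h23
  have h12 := swap0 _ _ h21
  have hli : LinearIndependent K ![e0, e1, e2, e3] := by
    rw [Fintype.linearIndependent_iff]
    intro g hg
    rw [Fin.sum_univ_four] at hg
    simp only [Matrix.cons_val] at hg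
    have g0 := congrArg (H.lin e3) hg
    have g1 := congrArg (H.lin e1) hg
    have g2 := congrArg (H.lin e2) hg
    have g3 := congrArg (H.lin e0) hg
    simp only [map_add, map_smul, map_zero] at g0 g1 g2 g3
    simp only [H.lin_apply, smul_eq_mul, h00, h01, h02, h03, h10, h12,
      h13, h20, h21, h23, h30, h31, h32, h33, mul_zero, mul_one, add_zero, zero_add,
      mul_eq_zero, h11, h22, or_false] at g0 g1 g2 g3
    intro i
    fin_cases i
    · exact g0
    · exact g1
    · exact g2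
    · exact g3
  let B := basisOfLinearIndependentOfCardEqFinrank hli (by simp [hV])
  refine ⟨h e1 e1, h e2 e2, B.equivFun, h11, h22, ?_⟩
  intro x y
  have hx : ∀ x : V, x = B.equivFun x 0 • e0 + B.equivFun x 1 • e1 + B.equivFun x 2 • e2 +
      B.equivFun x 3 • e3 := by
    intro x
    conv_lhs => rw [← B.sum_equivFun x]
    rw [Fin.sum_univ_four]
    simp [B]
  conv_lhs => rw [hx x, hx y]
  simp only [H.add_left, H.add_right hq, H.smul_left, H.smul_right, h00, h01, h02, h03, h10, h12,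
    h13, h20, h21, h23, h30, h31, h32, h33]
  ring

/-- Every Hermitian polar space `PSU(4, q₀)` has a partition into ovoids. -/
theorem exists_ovoidPartition [FiniteDimensional K V] (hq : Fintype.card K = q ^ 2)
    (hV : finrank K V = 4) (H : IsHermForm q h) (hW : WittIndex (TotIso h) 2) :
    ∃ P, IsOvoidPartition (TotIso h) 2 P := by
  obtain ⟨a, b, φ, hc⟩ := exists_coord hq hV H hW
  exact exists_partition_of_coord hq hc

end Basis

end Pool.Agent.Lib.MP_017654_co
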