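import Pool.Agent.Lib.MP_017654_co.Fan

/-!
# Ovoids of quadrics: pairs of points, extension of subspaces, number of points
-/

set_option autoImplicit false

namespace Pool.Agent.Lib.MP_017654_co

open Module Finset

section Basic

variable {K V : Type*} [Field K] [AddCommGroup V] [Module K V] {Q : QuadraticForm K V}

/-- the polar form as a bilinear map -/
noncomputable def pol (Q : QuadraticForm K V) : V →ₗ[K] V →ₗ[K] K := QuadraticMap.polarBilin Q

theorem pol_apply (x y : V) : pol Q x y = QuadraticMap.polar Q x y := rfl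

theorem pol_comm (x y : V) : pol Q x y = pol Q y x := QuadraticMap.polar_comm Q x y

theorem Q_add (x y : V) : Q (x + y) = Q x + Q y + pol Q x y := by
  rw [pol_apply, QuadraticMap.polar]; ring

theorem pol_self (x : V) : pol Q x x = 2 * Q x := by
  rw [pol_apply, QuadraticMap.polar_self]
  simp

theorem Q_smul (c : K) (x : V) : Q (c • x) = c * c * Q x := by
  rw [QuadraticMap.map_smul]; simp

theorem TotSing.pol_eq {W : Submodule K V} (hW : TotSing Q W) {x y : V} (hx : x ∈ W) (hy : y ∈ W) :
    pol Q x y = 0 := by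
  have := Q_add (Q := Q) x y
  rw [hW _ (W.add_mem hx hy), hW x hx, hW y hy] at this
  simpa using this.symm

/-- the orthogonal subspace -/
noncomputable def orth (Q : QuadraticForm K V) (W : Submodule K V) : Submodule K V where
  carrier := {v | ∀ x ∈ W, pol Q x v = 0}
  add_mem' := by
    intro a b ha hb x hx
    rw [map_add, ha x hx, hb x hx, add_zero]
  zero_mem' := by intro x _; rw [map_zero]
  smul_mem' := by
    intro c a ha x hx
    rw [map_smul, ha x hx, smul_zero]

theorem mem_orth {W : Submodule K V} {v : V} : v ∈ orth Q W ↔ ∀ x ∈ W, pol Q x v = 0 := Iff.rfl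

theorem TotSing.le_orth {W : Submodule K V} (hW : TotSing Q W) : W ≤ orth Q W :=
  fun _ hv _ hx => hW.pol_eq hx hv

theorem TotSing.sup {W : Submodule K V} (hW : TotSing Q W) {v : V} (hv : Q v = 0)
    (hvW : ∀ w ∈ W, pol Q w v = 0) : TotSing Q (W ⊔ Submodule.span K {v}) := by
  intro x hx
  obtain ⟨w, hw, z, hz, rfl⟩ := Submodule.mem_sup.1 hx
  obtain ⟨c, rfl⟩ := Submodule.mem_span_singleton.1 hz
  rw [Q_add, hW w hw, Q_smul, hv, map_smul, hvW w hw]
  simp

variable [FiniteDimensional K V]

/-- Every totally singular subspace lies in one of dimension `r`, the Witt index. -/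
theorem exists_max (r : ℕ) (hr : WittIndex (TotSing Q) r) {L : Submodule K V} (hL : TotSing Q L) :
    ∃ M, IsMax (TotSing Q) r M ∧ L ≤ M := by
  obtain ⟨⟨W, hW, hWr⟩, hle⟩ := hr
  set N : Submodule K V := orth Q L ⊓ W with hN
  have hMs : TotSing Q (L ⊔ N) := by
    intro x hx
    obtain ⟨l, hl, n, hn, rfl⟩ := Submodule.mem_sup.1 hx
    rw [Q_add, hL l hl, hW n hn.2, hn.1 l hl]
    simp
  refine ⟨L ⊔ N, ⟨hMs, le_antisymm (hle _ hMs) ?_⟩, le_sup_left⟩
  -- dimension count
  let T : W →ₗ[K] Dual K L :=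
    (LinearMap.lcomp K K L.subtype).comp ((pol Q).comp W.subtype)
  have hT : ∀ (w : W) (l : L), T w l = pol Q w l := fun _ _ => rfl
  let P : Submodule K L := Submodule.comap L.subtype W
  have hrange : LinearMap.range T ≤ P.dualAnnihilator := by
    rintro _ ⟨w, rfl⟩
    rw [Submodule.mem_dualAnnihilator]
    intro l hl
    rw [hT]
    exact hW.pol_eq w.2 hl
  have h1 := Submodule.finrank_mono hrange
  have h2 := Subspace.finrank_add_finrank_dualAnnihilator_eq P
  have h3 := LinearMap.finrank_range_add_finrank_ker T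
  have hker : finrank K (LinearMap.ker T) = finrank K N := by
    have : (LinearMap.ker T).map W.subtype = N := by
      ext v
      rw [Submodule.mem_map, hN, Submodule.mem_inf]
      constructor
      · rintro ⟨w, hw, rfl⟩
        refine ⟨fun x hx => ?_, w.2⟩
        have := congrArg (fun f : Dual K L => f ⟨x, hx⟩) (LinearMap.mem_ker.1 hw)
        rw [pol_comm]
        exact this
      · rintro ⟨hv, hvW⟩
        refine ⟨⟨v, hvW⟩, ?_, rfl⟩
        rw [LinearMap.mem_ker]
        ext l
        rw [hT, pol_comm]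
        exact hv l l.2
    rw [← this, Submodule.finrank_map_subtype_eq]
  have hP : finrank K P = finrank K (L ⊓ N : Submodule K V) := by
    have : P.map L.subtype = L ⊓ N := by
      ext v
      rw [Submodule.mem_map, hN, Submodule.mem_inf, Submodule.mem_inf]
      constructor
      · rintro ⟨w, hw, rfl⟩
        exact ⟨w.2, hL.le_orth w.2, hw⟩
      · rintro ⟨hv, -, hvW⟩
        exact ⟨⟨v, hv⟩, hvW, rfl⟩
    rw [← this, Submodule.finrank_map_subtype_eq]
  have h4 := Submodule.finrank_sup_add_finrank_inf_eq L N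
  omega

/-- Every functional on a subspace is given by a vector. -/
theorem exists_pol_eq (hQ : NonDeg Q) {U : Submodule K V} (ψ : U →ₗ[K] K) :
    ∃ v : V, ∀ x : U, pol Q v x = ψ x := by
  have hinj : Function.Injective (pol Q) := by
    rw [injective_iff_map_eq_zero]
    intro x hx
    apply hQ
    intro y
    rw [← pol_apply, hx]
    rfl
  have hsurj : Function.Surjective (pol Q) := by
    have h1 : finrank K V = finrank K (V →ₗ[K] K) := (Subspace.dual_finrank_eq).symm
    exact (LinearMap.injective_iff_surjective_of_finrank_eq_finrank h1).1 hinj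
  obtain ⟨ψ', hψ'⟩ := LinearMap.exists_extend ψ
  obtain ⟨v, hv⟩ := hsurj ψ'
  refine ⟨v, fun x => ?_⟩
  rw [hv, ← hψ']
  rfl

/-- Two different points of an ovoid are not perpendicular. -/
theorem IsOvoid.pol_ne {r : ℕ} (hr : WittIndex (TotSing Q) r) {O : Set (Submodule K V)}
    (hO : IsOvoid (TotSing Q) r O) {x y : V} (hx : Submodule.span K {x} ∈ O)
    (hy : Submodule.span K {y} ∈ O) (hne : Submodule.span K {x} ≠ Submodule.span K {y}) :
    pol Q x y ≠ 0 := by
  intro h0
  have hsx : TotSing Q (Submodule.span K {x}) := (hO.1 _ hx).1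
  have hQy : Q y = 0 := (hO.1 _ hy).1 y (Submodule.mem_span_singleton_self y)
  have hL : TotSing Q (Submodule.span K {x} ⊔ Submodule.span K {y}) := by
    apply hsx.sup hQy
    intro w hw
    obtain ⟨c, rfl⟩ := Submodule.mem_span_singleton.1 hw
    rw [map_smul, LinearMap.smul_apply, h0, smul_zero]
  obtain ⟨M, hM, hLM⟩ := exists_max r hr hL
  obtain ⟨z, -, hz⟩ := hO.2 M hM
  apply hne
  rw [hz _ ⟨hx, le_sup_left.trans hLM⟩, hz _ ⟨hy, le_sup_right.trans hLM⟩]

/-- For every functional on `orth W` with value one at the point of the ovoid in `W` there is a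
point of the ovoid which induces it. -/
theorem IsOvoid.exists_point (hQ : NonDeg Q) {r : ℕ} (hr : WittIndex (TotSing Q) r)
    {O : Set (Submodule K V)} (hO : IsOvoid (TotSing Q) r O) {W : Submodule K V}
    (hW : TotSing Q W) (hWr : finrank K W = r) {x₀ : V} (hx₀ : x₀ ∈ W)
    (hx₀O : Submodule.span K {x₀} ∈ O) (ψ : orth Q W →ₗ[K] K)
    (hψ : ψ ⟨x₀, hW.le_orth hx₀⟩ = 1) :
    ∃ y ∈ O, ∃ η ∈ y, ∀ x : orth Q W, pol Q η x = ψ x := by
  obtain ⟨v, hv⟩ := exists_pol_eq hQ ψ
  have hx₀0 : Q x₀ = 0 := hW x₀ hx₀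
  have hvx : pol Q v x₀ = 1 := (hv ⟨x₀, hW.le_orth hx₀⟩).trans hψ
  obtain ⟨v', hv'0, hv'⟩ : ∃ v', Q v' = 0 ∧ ∀ x : orth Q W, pol Q v' x = ψ x := by
    refine ⟨v + (-Q v) • x₀, ?_, ?_⟩
    · rw [Q_add, Q_smul, hx₀0, map_smul, smul_eq_mul, hvx]
      ring
    · intro x
      rw [map_add, LinearMap.add_apply, map_smul, LinearMap.smul_apply, x.2 x₀ hx₀, smul_zero,
        add_zero, hv]
  have hv'x : pol Q v' x₀ = 1 := (hv' ⟨x₀, hW.le_orth hx₀⟩).trans hψ
  -- the hyperplane of `W`
  let f : W →ₗ[K] K := (pol Q v').comp W.subtype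
  have hf : ∀ w : W, f w = pol Q v' w := fun _ => rfl
  set W1 : Submodule K V := (LinearMap.ker f).map W.subtype with hW1
  have memW1 : ∀ w, w ∈ W1 ↔ w ∈ W ∧ pol Q v' w = 0 := by
    intro w
    rw [hW1, Submodule.mem_map]
    constructor
    · rintro ⟨u, hu, rfl⟩
      exact ⟨u.2, hu⟩
    · rintro ⟨h1, h2⟩
      exact ⟨⟨w, h1⟩, h2, rfl⟩
  have hW1le : W1 ≤ W := fun w hw => ((memW1 w).1 hw).1
  have hW1dim : r ≤ finrank K W1 + 1 := by
    rw [hW1, Submodule.finrank_map_subtype_eq]
    have h1 := LinearMap.finrank_range_add_finrank_ker f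
    have h2 : finrank K (LinearMap.range f) ≤ 1 := by
      calc finrank K (LinearMap.range f) ≤ finrank K K := Submodule.finrank_le _
        _ = 1 := finrank_self K
    omega
  have hv'W1 : v' ∉ W := by
    intro h
    have := hW.pol_eq h hx₀
    rw [hv'x] at this
    exact one_ne_zero this
  have hW2s : TotSing Q (W1 ⊔ Submodule.span K {v'}) := by
    apply TotSing.sup (fun x hx => hW x (hW1le hx)) hv'0
    intro w hw
    rw [pol_comm]
    exact ((memW1 w).1 hw).2
  have hv'ne : v' ≠ 0 := by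
    intro h; apply hv'W1; rw [h]; exact W.zero_mem
  have hinf : W1 ⊓ Submodule.span K {v'} = ⊥ := by
    rw [eq_bot_iff]
    rintro w ⟨hw1, hw2⟩
    obtain ⟨c, rfl⟩ := Submodule.mem_span_singleton.1 hw2
    by_cases hc : c = 0
    · rw [hc, zero_smul]; exact Submodule.zero_mem _
    · exfalso
      apply hv'W1
      have := W.smul_mem c⁻¹ (hW1le hw1)
      rwa [smul_smul, inv_mul_cancel₀ hc, one_smul] at this
  have hW2dim : finrank K (W1 ⊔ Submodule.span K {v'} : Submodule K V) = r := by
    apply le_antisymm (hr.2 _ hW2s)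
    have h1 := Submodule.finrank_sup_add_finrank_inf_eq W1 (Submodule.span K {v'})
    rw [hinf, finrank_bot, finrank_span_one hv'ne] at h1
    omega
  obtain ⟨y, ⟨hyO, hyle⟩, -⟩ := hO.2 _ ⟨hW2s, hW2dim⟩
  obtain ⟨η, hη0, hyη⟩ := exists_span_of_finrank_one (hO.1 y hyO).2
  have hηy : η ∈ y := by rw [hyη]; exact Submodule.mem_span_singleton_self η
  obtain ⟨w, hw, z, hz, hwz⟩ := Submodule.mem_sup.1 (hyle hηy)
  obtain ⟨t, rfl⟩ := Submodule.mem_span_singleton.1 hz
  have ht : t ≠ 0 := by
    intro ht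
    rw [ht, zero_smul, add_zero] at hwz
    subst hwz
    have hηW : w ∈ W := hW1le hw
    obtain ⟨p, -, hp⟩ := hO.2 W ⟨hW, hWr⟩
    have h1 : y = Submodule.span K {x₀} := by
      rw [hp _ ⟨hyO, by rw [hyη, Submodule.span_singleton_le_iff_mem]; exact hηW⟩,
        hp _ ⟨hx₀O, by rw [Submodule.span_singleton_le_iff_mem]; exact hx₀⟩]
    rw [h1] at hηy
    obtain ⟨c, hc⟩ := Submodule.mem_span_singleton.1 hηy
    have h2 := ((memW1 w).1 hw).2
    rw [← hc, map_smul, hv'x, smul_eq_mul, mul_one] at h2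
    rw [h2, zero_smul] at hc
    exact hη0 hc.symm
  refine ⟨y, hyO, t⁻¹ • η, y.smul_mem _ hηy, fun x => ?_⟩
  rw [← hwz, smul_add, smul_smul, inv_mul_cancel₀ ht, one_smul, map_add, LinearMap.add_apply,
    map_smul, LinearMap.smul_apply, x.2 w (hW1le hw), smul_zero, zero_add, hv']

/-- An ovoid has more than `q ^ (d - 1)` points, `d` the dimension of `orth W`. -/
theorem IsOvoid.card_ge [Fintype K] (hQ : NonDeg Q) {r : ℕ} (hr : WittIndex (TotSing Q) r)
    {O : Set (Submodule K V)} (hO : IsOvoid (TotSing Q) r O) [Fintype O] {W : Submodule K V}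
    (hW : TotSing Q W) (hWr : finrank K W = r) {d : ℕ} (hd : finrank K (orth Q W) = d + 1) :
    Fintype.card K ^ d + 1 ≤ Fintype.card O := by
  classical
  obtain ⟨p, ⟨hpO, hpW⟩, -⟩ := hO.2 W ⟨hW, hWr⟩
  obtain ⟨x₀, hx₀0, hpx⟩ := exists_span_of_finrank_one (hO.1 p hpO).2
  have hx₀ : x₀ ∈ W := hpW (by rw [hpx]; exact Submodule.mem_span_singleton_self x₀)
  rw [hpx] at hpO
  set a : orth Q W := ⟨x₀, hW.le_orth hx₀⟩ with ha
  have ha0 : a ≠ 0 := fun h => hx₀0 (congrArg Subtype.val h)
  -- functionals with value zero at `a`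
  let A : Submodule K (Dual K (orth Q W)) := LinearMap.ker (Dual.eval K (orth Q W) a)
  obtain ⟨ψ₀, hψ₀⟩ : ∃ ψ₀ : Dual K (orth Q W), ψ₀ a = 1 := by
    obtain ⟨f, hf⟩ : ∃ f : Dual K (orth Q W), f a ≠ 0 := by
      by_contra hno
      push Not at hno
      exact ha0 ((forall_dual_apply_eq_zero_iff K a).1 hno)
    exact ⟨(f a)⁻¹ • f, by rw [LinearMap.smul_apply, smul_eq_mul, inv_mul_cancel₀ hf]⟩
  have hA : finrank K A = d := by
    have h1 := LinearMap.finrank_range_add_finrank_ker (Dual.eval K (orth Q W) a)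
    have h2 : LinearMap.range (Dual.eval K (orth Q W) a) = ⊤ := by
      rw [LinearMap.range_eq_top]
      intro c
      refine ⟨c • ψ₀, ?_⟩
      rw [Dual.eval_apply, LinearMap.smul_apply, hψ₀, smul_eq_mul, mul_one]
    rw [h2, finrank_top, finrank_self, Subspace.dual_finrank_eq, hd] at h1
    change finrank K (LinearMap.ker (Dual.eval K (orth Q W) a)) = d
    omega
  have key : ∀ φ : A, ∃ y : O, ∃ η ∈ (y : Submodule K V), ∀ x : orth Q W,
      pol Q η x = (ψ₀ + (φ : Dual K (orth Q W))) x := by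
    intro φ
    have h1 : (ψ₀ + (φ : Dual K (orth Q W))) a = 1 := by
      have h2 : (φ : Dual K (orth Q W)) a = 0 := φ.2
      rw [LinearMap.add_apply, hψ₀, h2, add_zero]
    obtain ⟨y, hyO, η, hη, hx⟩ := hO.exists_point hQ hr hW hWr hx₀ hpO _ h1
    exact ⟨⟨y, hyO⟩, η, hη, hx⟩
  choose F hF using key
  -- an injection
  let G : Option A → O := fun o => o.elim ⟨Submodule.span K {x₀}, hpO⟩ F
  have hG : Function.Injective G := by
    have h1 : ∀ φ, F φ ≠ ⟨Submodule.span K {x₀}, hpO⟩ := by
      intro φ hφ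
      obtain ⟨η, hη, hx⟩ := hF φ
      rw [hφ] at hη
      have h3 : (ψ₀ + (φ : Dual K (orth Q W))) a = 1 := by
        have h2 : (φ : Dual K (orth Q W)) a = 0 := φ.2
        rw [LinearMap.add_apply, hψ₀, h2, add_zero]
      obtain ⟨c, rfl⟩ := Submodule.mem_span_singleton.1 hη
      have h4 := hx a
      rw [h3, map_smul, LinearMap.smul_apply] at h4
      have h5 : pol Q x₀ a = 0 := hW.pol_eq hx₀ hx₀
      rw [h5, smul_zero] at h4
      exact zero_ne_one h4
    intro o1 o2 h12
    cases o1 with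
    | none =>
      cases o2 with
      | none => rfl
      | some φ => exact absurd h12.symm (h1 φ)
    | some φ1 =>
      cases o2 with
      | none => exact absurd h12 (h1 φ1)
      | some φ2 =>
        have h12' : F φ1 = F φ2 := h12
        obtain ⟨η1, hη1, hx1⟩ := hF φ1
        obtain ⟨η2, hη2, hx2⟩ := hF φ2
        rw [← h12'] at hη2
        obtain ⟨u, hu0, hu⟩ := exists_span_of_finrank_one (hO.1 _ (F φ1).2).2
        rw [hu] at hη1 hη2
        obtain ⟨c1, rfl⟩ := Submodule.mem_span_singleton.1 hη1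
        obtain ⟨c2, rfl⟩ := Submodule.mem_span_singleton.1 hη2
        have e1 := hx1 a
        have e2 := hx2 a
        have z1 : (φ1 : Dual K (orth Q W)) a = 0 := φ1.2
        have z2 : (φ2 : Dual K (orth Q W)) a = 0 := φ2.2
        rw [LinearMap.add_apply, hψ₀, z1, add_zero, map_smul, LinearMap.smul_apply,
          smul_eq_mul] at e1
        rw [LinearMap.add_apply, hψ₀, z2, add_zero, map_smul, LinearMap.smul_apply,
          smul_eq_mul] at e2
        have hne : pol Q u a ≠ 0 := by
          intro h; rw [h, mul_zero] at e1; exact zero_ne_one e1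
        have hc : c1 = c2 := mul_right_cancel₀ hne (e1.trans e2.symm)
        have : φ1 = φ2 := by
          apply Subtype.ext
          apply LinearMap.ext
          intro x
          have f1 := hx1 x
          have f2 := hx2 x
          rw [hc, f2, LinearMap.add_apply, LinearMap.add_apply] at f1
          exact (add_left_cancel f1).symm
        rw [this]
  have : Finite A := Module.finite_of_finite K
  have hfinA : Fintype A := Fintype.ofFinite A
  have h6 := Fintype.card_le_of_injective G hG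
  rw [Fintype.card_option, Module.card_eq_pow_finrank (K := K), hA] at h6
  exact h6

end Basic

end Pool.Agent.Lib.MP_017654_co
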