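import Pool.Agent.Lib.MP_017654_co.Core

/-!
# The two cases: `PΩ⁺(8, 2^h)` and `PΩ(7, 3^h)`
-/

set_option autoImplicit false

namespace Pool.Agent.Lib.MP_017654_co

open Module Finset

section Types

variable {K V : Type*} [Field K] [AddCommGroup V] [Module K V] {Q : QuadraticForm K V}

theorem finrank_orth [FiniteDimensional K V] (hQ : NonDeg Q) (W : Submodule K V) :
    finrank K W + finrank K (orth Q W) = finrank K V := by
  let T : V →ₗ[K] Dual K W := (LinearMap.lcomp K K W.subtype).comp (pol Q)
  have hT : ∀ (v : V) (w : W), T v w = pol Q v w := fun _ _ => rfl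
  have hrange : LinearMap.range T = ⊤ := by
    rw [LinearMap.range_eq_top]
    intro ψ
    obtain ⟨v, hv⟩ := exists_pol_eq hQ ψ
    exact ⟨v, LinearMap.ext hv⟩
  have hker : LinearMap.ker T = orth Q W := by
    ext v
    rw [LinearMap.mem_ker, mem_orth]
    constructor
    · intro h x hx
      rw [pol_comm]
      exact congrArg (fun f : Dual K W => f ⟨x, hx⟩) h
    · intro h
      ext w
      rw [hT, pol_comm]
      exact h w w.2
  have h1 := LinearMap.finrank_range_add_finrank_ker T
  rw [hrange, finrank_top, Subspace.dual_finrank_eq, hker] at h1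
  exact h1

/-- The linear functionals `x ↦ B(x, u)` on the singular vectors. -/
noncomputable def linSpace (Q : QuadraticForm K V) : V →ₗ[K] ({x : V // Q x = 0} → K) where
  toFun u := fun x => pol Q (x : V) u
  map_add' := by
    intro u v
    funext x
    exact map_add _ _ _
  map_smul' := by
    intro c u
    funext x
    exact map_smul _ _ _

theorem geom_two (h : ℕ) : ∑ j ∈ range h, 2 ^ j = 2 ^ h - 1 := by
  have := Nat.geomSum_eq (le_refl 2) h
  rw [this]
  simp

theorem geom_three (h : ℕ) : 2 * ∑ j ∈ range h, 3 ^ j = 3 ^ h - 1 := by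
  induction h with
  | zero => simp
  | succ n ih =>
    rw [Finset.sum_range_succ, mul_add, ih, pow_succ]
    have : 0 < 3 ^ n := by positivity
    omega

theorem no_partition_plus_eight [Fintype K] [CharP K 2] (hV : finrank K V = 8) (hQ : NonDeg Q)
    (hW : WittIndex (TotSing Q) 4) : ¬ ∃ P, IsOvoidPartition (TotSing Q) 4 P := by
  have hfin : FiniteDimensional K V := Module.finite_of_finrank_pos (by omega)
  have : Finite V := Module.finite_of_finite K
  have : Fintype V := Fintype.ofFinite V
  have : Fact (Nat.Prime 2) := ⟨Nat.prime_two⟩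
  obtain ⟨n, -, hn⟩ := FiniteField.card K 2
  obtain ⟨F, hFfin, hF1, hF2⟩ := exists_pow_space 2 (n : ℕ) (LinearMap.range (linSpace Q))
  have hG : finrank K (LinearMap.range (linSpace Q)) ≤ 8 := by
    rw [← hV]
    exact LinearMap.finrank_range_le _
  refine no_partition (d := 3) (by omega) hQ (by norm_num) hW ?_ F ?_ ?_
  · rintro W ⟨-, hWr⟩
    have := finrank_orth hQ W
    omega
  · refine hF1.trans ((Nat.pow_le_pow_left hG _).trans ?_)
    rw [hn, ← pow_mul, mul_comm (n : ℕ) 3, pow_mul]
    norm_num
  · intro u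
    have h1 := hF2 (linSpace Q u) ⟨_, rfl⟩
    rw [geom_two, ← hn] at h1
    exact h1

/-- the index set of the quadratic monomials in seven variables -/
abbrev I7 : Type := {p : Fin 7 × Fin 7 // p.1 ≤ p.2}

theorem card_I7 : Fintype.card I7 = 28 := by decide

/-- quadratic monomials on the singular vectors -/
noncomputable def mono (Q : QuadraticForm K V) (b : Basis (Fin 7) K V) (p : I7) :
    {x : V // Q x = 0} → K :=
  fun x => b.repr x p.1.1 * b.repr x p.1.2

theorem mono_mem (b : Basis (Fin 7) K V) (i j : Fin 7) :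
    (fun x : {x : V // Q x = 0} => b.repr (x : V) i * b.repr (x : V) j) ∈
      Submodule.span K (Set.range (mono Q b)) := by
  rcases le_total i j with h | h
  · exact Submodule.subset_span ⟨⟨(i, j), h⟩, rfl⟩
  · have : (fun x : {x : V // Q x = 0} => b.repr (x : V) i * b.repr (x : V) j) =
        mono Q b ⟨(j, i), h⟩ := by
      funext x
      exact mul_comm _ _
    rw [this]
    exact Submodule.subset_span ⟨_, rfl⟩

theorem not_li (b : Basis (Fin 7) K V) (hQ : NonDeg Q) :
    ¬ LinearIndependent K (mono Q b) := by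
  intro hli
  rw [Fintype.linearIndependent_iff] at hli
  set T := Q.toBilin b with hT
  have hTQ : ∀ x, Q x = T x x := by
    intro x
    have h1 := QuadraticMap.toQuadraticMap_toBilin Q b
    conv_lhs => rw [← h1]
    rfl
  have hlow : ∀ i j : Fin 7, ¬ i ≤ j → T (b i) (b j) = 0 := by
    intro i j hij
    rw [hT, QuadraticMap.toBilin_apply]
    have h1 : i ≠ j := fun h => hij (le_of_eq h)
    have h2 : ¬ i < j := fun h => hij (le_of_lt h)
    rw [if_neg h1, if_neg h2]
  have hexp : ∀ x, T x x = ∑ p : I7, T (b p.1.1) (b p.1.2) * (b.repr x p.1.1 * b.repr x p.1.2) := by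
    intro x
    have h1 : T x x = ∑ i, ∑ j, T (b i) (b j) * (b.repr x i * b.repr x j) := by
      conv_lhs => rw [← b.sum_repr x]
      simp only [map_sum, LinearMap.sum_apply, map_smul, LinearMap.smul_apply, smul_eq_mul]
      rw [Finset.sum_comm]
      refine Finset.sum_congr rfl fun j _ => ?_
      rw [Finset.mul_sum]
      refine Finset.sum_congr rfl fun i _ => ?_
      ring
    rw [h1, ← Fintype.sum_prod_type' fun i j => T (b i) (b j) * (b.repr x i * b.repr x j)]
    have h2 : ∑ p : Fin 7 × Fin 7, T (b p.1) (b p.2) * (b.repr x p.1 * b.repr x p.2) =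
        ∑ p : Fin 7 × Fin 7 with p.1 ≤ p.2, T (b p.1) (b p.2) * (b.repr x p.1 * b.repr x p.2) := by
      rw [Finset.sum_filter]
      refine Finset.sum_congr rfl fun p _ => ?_
      by_cases hp : p.1 ≤ p.2
      · rw [if_pos hp]
      · rw [if_neg hp, hlow _ _ hp, zero_mul]
    rw [h2]
    exact Finset.sum_subtype (Finset.univ.filter fun p : Fin 7 × Fin 7 => p.1 ≤ p.2)
      (p := fun p : Fin 7 × Fin 7 => p.1 ≤ p.2) (fun p => by simp)
      (fun p => T (b p.1) (b p.2) * (b.repr x p.1 * b.repr x p.2))
  have hc := hli (fun p => T (b p.1.1) (b p.1.2)) (by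
    funext x
    rw [Finset.sum_apply, Pi.zero_apply]
    exact (hexp x).symm.trans ((hTQ x).symm.trans x.2))
  have hT0 : T = 0 := by
    apply b.ext
    intro i
    apply b.ext
    intro j
    by_cases hij : i ≤ j
    · exact hc ⟨(i, j), hij⟩
    · exact hlow i j hij
  have hQ0 : ∀ x, Q x = 0 := by
    intro x
    rw [hTQ, hT0]
    rfl
  have hb : b 0 = 0 := by
    apply hQ
    intro y
    rw [QuadraticMap.polar, hQ0, hQ0, hQ0]
    simp
  exact b.ne_zero 0 hb

theorem no_partition_seven [Fintype K] [CharP K 3] (hV : finrank K V = 7) (hQ : NonDeg Q)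
    (hW : WittIndex (TotSing Q) 3) : ¬ ∃ P, IsOvoidPartition (TotSing Q) 3 P := by
  have hfin : FiniteDimensional K V := Module.finite_of_finrank_pos (by omega)
  have : Finite V := Module.finite_of_finite K
  have : Fintype V := Fintype.ofFinite V
  have : Fact (Nat.Prime 3) := ⟨Nat.prime_three⟩
  obtain ⟨n, -, hn⟩ := FiniteField.card K 3
  let b : Basis (Fin 7) K V := finBasisOfFinrankEq K V hV
  obtain ⟨F, hFfin, hF1, hF2⟩ := exists_pow_space 3 (n : ℕ) (Submodule.span K (Set.range (mono Q b)))
  have hG : finrank K (Submodule.span K (Set.range (mono Q b))) ≤ 27 := by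
    have h1 : finrank K (Submodule.span K (Set.range (mono Q b))) ≤ 28 := by
      rw [← card_I7]
      exact finrank_range_le_card (R := K) (mono Q b)
    have h2 : finrank K (Submodule.span K (Set.range (mono Q b))) ≠ 28 := by
      intro h
      apply not_li b hQ
      rw [linearIndependent_iff_card_eq_finrank_span, card_I7]
      exact h.symm
    omega
  refine no_partition (d := 3) (by omega) hQ (by norm_num) hW ?_ F ?_ ?_
  · rintro W ⟨-, hWr⟩
    have := finrank_orth hQ W
    omega
  · refine hF1.trans ((Nat.pow_le_pow_left hG _).trans ?_)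
    rw [hn, ← pow_mul, mul_comm (n : ℕ) 3, pow_mul]
    norm_num
  · intro u
    have hmem : (fun x : {x : V // Q x = 0} => pol Q (x : V) u ^ 2) ∈
        Submodule.span K (Set.range (mono Q b)) := by
      have h1 : (fun x : {x : V // Q x = 0} => pol Q (x : V) u ^ 2) =
          ∑ i, ∑ j, (pol Q (b i) u * pol Q (b j) u) •
            fun x : {x : V // Q x = 0} => b.repr (x : V) i * b.repr (x : V) j := by
        funext x
        have h2 : pol Q (x : V) u = ∑ i, b.repr (x : V) i * pol Q (b i) u := by
          conv_lhs => rw [← b.sum_repr (x : V)]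
          simp only [map_sum, LinearMap.sum_apply, map_smul, LinearMap.smul_apply, smul_eq_mul]
        simp only [Finset.sum_apply, Pi.smul_apply, smul_eq_mul]
        rw [h2, sq, Finset.sum_mul_sum]
        refine Finset.sum_congr rfl fun i _ => Finset.sum_congr rfl fun j _ => ?_
        ring
      rw [h1]
      exact Submodule.sum_mem _ fun i _ => Submodule.sum_mem _ fun j _ =>
        Submodule.smul_mem _ _ (mono_mem b i j)
    have h1 := hF2 _ hmem
    have h2 : (fun x : {x : V // Q x = 0} => (pol Q (x : V) u ^ 2) ^ ∑ j ∈ range (n : ℕ), 3 ^ j) =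
        fun x : {x : V // Q x = 0} => pol Q (x : V) u ^ (Fintype.card K - 1) := by
      funext x
      rw [← pow_mul, geom_three, hn]
    rw [← h2]
    exact h1

end Types

end Pool.Agent.Lib.MP_017654_co
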